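import Pool.Agent.P.MP_49c4d9_an.WT.Kern

/-! The part of the space where the modulus of the weight is aperiodic is null. -/

open MeasureTheory Filter
open scoped ENNReal

noncomputable section
namespace Pool.Agent.P.MP_49c4d9_an.WT

open Pool.Agent.P.MP_f981b0_an.Bish

theorem endgame2 {E : Type*} [NormedAddCommGroup E] [NormedSpace ℂ E] (T : E →L[ℂ] E)
    {s s' c M δ : ℝ} (hc : 0 < c) (hcs : c ≤ s + s') (hM : 1 ≤ M)
    (hδ : 0 ≤ δ) (hsmall : (2 * M / c) ^ 4 * δ < 1)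
    (hP : ‖T - algebraMap ℂ _ (s : ℂ)‖ ≤ M) (hQ : ‖T + algebraMap ℂ _ (s' : ℂ)‖ ≤ M)
    (g : ℕ → E →L[ℂ] ℂ) (hg : ∀ n, ‖g n‖ ≤ 1)
    (hgn : ∀ n h, ‖g n (((T + algebraMap ℂ _ (s' : ℂ)) ^ (2 * n)) h)‖ ≤ δ ^ n * ‖h‖) :
    ∃ V : Submodule ℂ E, IsClosed (V : Set E) ∧ (∀ h ∈ V, T h ∈ V) ∧
      (∀ h ∈ V, Tendsto (fun n => g n h) atTop (nhds 0)) ∧
      ∀ (f : ℕ → E) (f₀ : E), (∀ n, ‖f n‖ ≤ 1) →
        (∀ n, ‖((T - algebraMap ℂ _ (s : ℂ)) ^ (2 * n)) (f n)‖ ≤ δ ^ n) →
        Tendsto f atTop (nhds f₀) → f₀ ∈ V := by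
  let V : Submodule ℂ E :=
    { carrier := {h | ∀ Y : E →L[ℂ] E, Y * T = T * Y → Tendsto (fun n => g n (Y h)) atTop (nhds 0)}
      add_mem' := fun {x y} hx hy Y hY => by simpa using (hx Y hY).add (hy Y hY)
      zero_mem' := fun Y _ => by simp
      smul_mem' := fun z x hx Y hY => by simpa using (hx Y hY).const_mul z }
  have happrox : ∀ (h : E) (u : ℕ → E), Tendsto u atTop (nhds h) → ∀ Y : E →L[ℂ] E,
      Tendsto (fun n => g n (Y (h - u n))) atTop (nhds 0) := by
    intro h u hu Y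
    have h1 : Tendsto (fun n => ‖Y (h - u n)‖) atTop (nhds 0) := by
      have := ((Y.continuous.tendsto _).comp (hu.const_sub h)).norm
      simpa using this
    refine squeeze_zero_norm (fun n => ?_) h1
    exact ((g n).le_opNorm _).trans (mul_le_of_le_one_left (norm_nonneg _) (hg n))
  refine ⟨V, ?_, ?_, ?_, ?_⟩
  · refine isClosed_of_closure_subset fun h hh Y hY => ?_
    rw [Metric.tendsto_atTop]
    intro ε hε
    obtain ⟨u, hu, hdist⟩ := Metric.mem_closure_iff.mp hh (ε / 2 / (‖Y‖ + 1)) (by positivity)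
    obtain ⟨N, hN⟩ := Metric.tendsto_atTop.mp (hu Y hY) (ε / 2) (by positivity)
    refine ⟨N, fun n hn => ?_⟩
    have h1 := hN n hn
    rw [dist_zero_right] at h1 ⊢
    rw [dist_eq_norm, lt_div_iff₀ (by positivity)] at hdist
    have h2 : ‖g n (Y (h - u))‖ ≤ ‖Y‖ * ‖h - u‖ :=
      ((g n).le_opNorm _).trans ((mul_le_of_le_one_left (norm_nonneg _) (hg n)).trans
        (Y.le_opNorm _))
    have e : g n (Y h) = g n (Y (h - u)) + g n (Y u) := by simp
    rw [e]
    have h3 := norm_add_le (g n (Y (h - u))) (g n (Y u))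
    nlinarith [norm_nonneg (h - u)]
  · intro h hh Z hZ
    have := hh (Z * T) (by rw [← mul_assoc, hZ])
    simpa using this
  · intro h hh
    simpa using hh 1 (by simp)
  · intro f f₀ hf hfn hlim Y hY
    have hYT : Commute Y T := hY
    have h1 : Tendsto (fun n => g n (Y (f n))) atTop (nhds 0) := by
      have hq0 : 0 ≤ (2 * M / c) ^ 4 * δ := by positivity
      have h2 := (tendsto_pow_atTop_nhds_zero_of_lt_one hq0 hsmall).const_mul ‖Y‖
      rw [mul_zero] at h2
      refine squeeze_zero_norm (fun n => ?_) h2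
      have h3 := pair_bound (T - algebraMap ℂ _ (s : ℂ)) (T + algebraMap ℂ _ (s' : ℂ)) Y
        (((Commute.refl T).add_right (Algebra.commutes _ T).symm).sub_left
          (Algebra.commutes _ _))
        (hYT.add_right (Algebra.commutes _ Y).symm) (s + s')
        (by rw [Complex.ofReal_add, map_add]; abel) (by linarith) hM (by positivity : 0 ≤ δ ^ n)
        hP hQ (f n) (g n) (hf n) (hg n) (2 * n) (hfn n) (hgn n) (4 * n) 0 0 (by omega)
      simp only [pow_zero, mul_one, zero_add] at h3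
      have h4 : c ^ (4 * n) * ‖g n (Y (f n))‖ ≤ (s + s') ^ (4 * n) * ‖g n (Y (f n))‖ :=
        mul_le_mul_of_nonneg_right (pow_le_pow_left₀ hc.le hcs _) (norm_nonneg _)
      have h5 := h4.trans h3
      rw [← le_div_iff₀' (by positivity)] at h5
      refine h5.trans (le_of_eq ?_)
      rw [mul_pow, ← pow_mul, div_pow, mul_pow]
      field_simp
    have h2 := (happrox f₀ f hlim Y).add h1
    simpa using h2

variable {X : Type*} [MeasurableSpace X] {S : Sys X}

theorem fill {T : L2 S →L[ℂ] L2 S} {w : X → ℂ} {C : ℝ} (hw : Bdd w C) (hT : IsWt S T w 1)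
    {E : Set X} (hE : MeasurableSet E) (hinv : ∀ k x, S.σ k x ∈ E ↔ x ∈ E)
    (h0 : ∀ x ∈ E, w x ≠ 0)
    (hap : ∀ x ∈ E, ∀ j, j ≠ 0 → ∃ i, ‖w (S.σ i x)‖ ≠ ‖w (S.σ (i + j) x)‖)
    [IsProbabilityMeasure S.μ] {y : ℕ → X → ℤ → ℂ} (hy : ∀ n, Kn E (y n)) {θ : ℝ} (hθ : 0 < θ)
    (hyt : ∀ᶠ n in atTop, θ ≤ (∫ x, y n x 0 ∂S.μ).re)
    (hyc : ∀ η > 0, ∃ N, ∀ n ≥ N, ∀ m ≥ N, ∀ c : X → ℤ → ℂ, (∀ x j, ‖c x j‖ ≤ 1) →
      ∫ x, ‖∑' j, y n x j * c x j - ∑' j, y m x j * c x j‖ ∂S.μ ≤ η) :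
    ∃ E1 ⊆ E, MeasurableSet E1 ∧ (∀ k x, S.σ k x ∈ E1 ↔ x ∈ E1) ∧ S.μ E1 ≠ 0 ∧
      ∀ W : Submodule ℂ (L2 S), IsClosed (W : Set (L2 S)) → (∀ f ∈ W, T f ∈ W) →
        (∀ f ∈ W, star T f ∈ W) →
        (∀ al (hal : Bdd al 1) F,
          Tendsto (fun n => emb S.μ 2 _ ((hy n).bdd (S := S) hal)) atTop (nhds F) → F ∈ W) →
        ∀ u : L2 S, (∀ᵐ x ∂S.μ, x ∉ E1 → u x = 0) → u ∈ W := by
  have h2 : (2 : ℝ≥0∞) ≠ ∞ := by norm_num
  obtain ⟨D, hD⟩ := exists_limit (μ := S.μ) h2 (fun n x => y n x 0) (fun n => (hy n).bdd_diag)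
    (fun η hη => by
      obtain ⟨N, hN⟩ := hyc η hη
      refine ⟨N, fun n hn m hm => ?_⟩
      have := hN n hn m hm (fun _ j => if j = 0 then 1 else 0) (fun _ j => by split_ifs <;> simp)
      simpa using this)
  have hB : MeasurableSet (E ∩ {x | D x ≠ 0}) :=
    hE.inter ((Lp.stronglyMeasurable D).measurable (measurableSet_singleton 0).compl)
  refine ⟨⋃ k, S.σ k ⁻¹' (E ∩ {x | D x ≠ 0}), ?_, MeasurableSet.iUnion fun k =>
    (S.mp k).measurable hB, fun k x => ?_, fun hz => ?_, fun W hW hW1 hW2 hF u hu => ?_⟩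
  · intro x hx
    obtain ⟨k, hk⟩ := Set.mem_iUnion.mp hx
    exact (hinv k x).mp hk.1
  · simp only [Set.mem_iUnion, Set.mem_preimage, ← S.σ_add]
    exact ⟨fun ⟨i, hi⟩ => ⟨_, hi⟩, fun ⟨i, hi⟩ => ⟨i - k, by rwa [sub_add_cancel]⟩⟩
  · have h3 := (Complex.continuous_re.tendsto _).comp
      (((pairing S.μ 2 _ (bdd_ind hE)).continuous.tendsto _).comp hD)
    have h4 : θ ≤ (pairing S.μ 2 _ (bdd_ind hE) D).re := by
      refine ge_of_tendsto h3 ?_
      filter_upwards [hyt] with n hn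
      refine hn.trans (le_of_eq ?_)
      simp only [Function.comp, pairing_apply]
      congr 1
      refine integral_congr_ae ?_
      filter_upwards [emb_ae (μ := S.μ) (p := 2) _ (hy n).bdd_diag] with x hx
      rw [hx]
      by_cases hxE : x ∈ E
      · simp [hxE]
      · simp [(hy n).supp x hxE]
    rw [pairing_apply, integral_eq_zero_of_ae] at h4
    · simp only [Complex.zero_re] at h4
      linarith
    · filter_upwards [measure_eq_zero_iff_ae_notMem.mp hz] with x hx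
      by_cases hxE : x ∈ E
      · have : D x = 0 := by
          by_contra h
          exact hx (Set.mem_iUnion.mpr ⟨0, by rw [Set.mem_preimage, S.σ_zero]; exact ⟨hxE, h⟩⟩)
        simp [this]
      · simp [hxE]
  obtain ⟨φ, hφ, hφ1, hφ2⟩ := exists_sep hW hw hT hW1 hW2
  have hsep : ∀ x ∈ E, ∀ j, j ≠ 0 → φ x ≠ φ (S.σ j x) := fun x hx j hj h => by
    obtain ⟨i, hi⟩ := hap x hx j hj
    exact hi (hφ2 x j (fun i => h0 _ ((hinv i x).mpr hx)) h i)
  have hin : ∀ (h f : L2 S) {c F : X → ℂ} {A : L2 S →L[ℂ] L2 S}, IsWt S A c 0 → f =ᵐ[S.μ] F →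
      inner ℂ h (A f) = ∫ x, (starRingEnd ℂ) (h x) * (c x * F x) ∂S.μ := by
    intro h f c F A hA hf
    rw [L2.inner_def]
    refine integral_congr_ae ?_
    filter_upwards [hA f, hf] with x a1 a2
    rw [a1, S.σ_zero, a2, RCLike.inner_apply, mul_comm]
  have step1 : ∀ h ∈ Wᗮ, ∀ᵐ x ∂S.μ, x ∈ E ∩ {x | D x ≠ 0} → h x = 0 := by
    intro h hh
    have hint : Integrable (fun x => (starRingEnd ℂ) (h x)) S.μ :=
      (Complex.conjCLE : ℂ →L[ℝ] ℂ).integrable_comp (integrable_Lp h)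
    have key : ∀ al (hal : Bdd al 1) (A : L2 S →L[ℂ] L2 S), IsWt S A al 0 →
        inner ℂ h (A D) = 0 := by
      intro al hal A hA
      have h3 := ((innerSL ℂ h).comp A).continuous.tendsto D |>.comp hD
      refine tendsto_nhds_unique h3 ?_
      rw [Metric.tendsto_atTop]
      intro ε hε
      obtain ⟨η, hη, hsm⟩ := small_norm (μ := S.μ) h2 (ε := ε / 2 / (‖h‖ + 1)) (by positivity)
      obtain ⟨N, hN⟩ := hyc η hη
      refine ⟨N, fun n hn => ?_⟩
      rw [dist_zero_right]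
      show ‖inner ℂ h (A _)‖ < ε
      rw [hin h _ hA (emb_ae _ (hy n).bdd_diag)]
      simp only [mul_comm (al _)]
      refine lt_of_le_of_lt (avg (hy n) hφ hsep hint hal (η := ε / 2) fun s => ?_) (by linarith)
      have he : Bdd (fun x => (∏ i ∈ s, sg φ i x) * al x) 1 := by
        simpa using bdd_mul (bdd_sg hφ s) hal
      obtain ⟨F, hFl⟩ := exists_limit (μ := S.μ) h2 _ (fun n => (hy n).bdd (S := S) he)
        (fun η hη => by
          obtain ⟨N, hN⟩ := hyc η hη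
          exact ⟨N, fun n hn m hm => hN n hn m hm _ fun x j => he.le _⟩)
      obtain ⟨M, B, -, hB1, hB2⟩ := (OK.prod hφ1 s).ex
      have h4 : inner ℂ h (B F) = 0 :=
        Submodule.inner_left_of_mem_orthogonal (hB2 F (hF _ he F hFl)) hh
      have h5 : ‖emb S.μ 2 _ ((hy n).bdd (S := S) he) - F‖ ≤ ε / 2 / (‖h‖ + 1) := by
        refine le_of_tendsto (hFl.const_sub _).norm ?_
        filter_upwards [eventually_ge_atTop N] with m hm
        have e : ∀ᵐ x ∂S.μ, (emb S.μ 2 _ ((hy n).bdd (S := S) he) -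
            emb S.μ 2 _ ((hy m).bdd (S := S) he) : L2 S) x =
            app S (y n) (fun x => (∏ i ∈ s, sg φ i x) * al x) x -
            app S (y m) (fun x => (∏ i ∈ s, sg φ i x) * al x) x := by
          filter_upwards [Lp.coeFn_sub (emb S.μ 2 _ ((hy n).bdd (S := S) he))
            (emb S.μ 2 _ ((hy m).bdd (S := S) he)),
            emb_ae (μ := S.μ) (p := 2) _ ((hy n).bdd (S := S) he),
            emb_ae (μ := S.μ) (p := 2) _ ((hy m).bdd (S := S) he)] with x a1 a2 a3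
          rw [a1, Pi.sub_apply, a2, a3]
        refine hsm _ ?_ ?_
        · filter_upwards [e] with x hx
          rw [hx]
          exact (norm_sub_le _ _).trans (by
            linarith [((hy n).bdd (S := S) he).le x, ((hy m).bdd (S := S) he).le x])
        · refine le_trans (le_of_eq (integral_congr_ae ?_))
            (hN n hn m hm _ fun x j => he.le (S.σ j x))
          filter_upwards [e] with x hx
          rw [hx]
          rfl
      have h6 : ∀ v : L2 S, ‖B v‖ ≤ ‖v‖ := fun v => by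
        refine Lp.norm_le_norm_of_ae_le ?_
        filter_upwards [hB1 v] with x hx
        rw [hx, S.σ_zero, norm_mul]
        exact mul_le_of_le_one_left (norm_nonneg _) ((bdd_sg hφ s).le x)
      rw [← hin h _ hB1 (emb_ae _ ((hy n).bdd (S := S) he)), ← sub_zero (inner ℂ h _), ← h4,
        ← inner_sub_right, ← map_sub]
      refine (norm_inner_le_norm _ _).trans ?_
      have h7 := (h6 _).trans h5
      rw [le_div_iff₀ (by positivity)] at h7
      nlinarith [norm_nonneg (B (emb S.μ 2 _ ((hy n).bdd (S := S) he) - F))]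
    have h3 : (fun x => inner ℂ (h x) (D x)) =ᵐ[S.μ] 0 := by
      refine (L2.integrable_inner h D).ae_eq_zero_of_forall_setIntegral_eq_zero fun t ht _ => ?_
      obtain ⟨A, hA⟩ := exists_isWt S (bdd_ind ht) 0
      rw [← key _ (bdd_ind ht) A hA, hin h D hA (ae_eq_refl _), ← integral_indicator ht]
      refine integral_congr_ae (Eventually.of_forall fun x => ?_)
      by_cases hx : x ∈ t
      · simp [hx, mul_comm]
      · simp [hx]
    filter_upwards [h3] with x hx hxB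
    have h4 : D x ≠ 0 := hxB.2
    simpa [h4] using hx
  have o1 : ∀ h ∈ Wᗮ, T h ∈ Wᗮ := fun h hh f hf => by
    rw [← ContinuousLinearMap.adjoint_inner_left]
    exact hh _ (hW2 f hf)
  have o2 : ∀ h ∈ Wᗮ, star T h ∈ Wᗮ := fun h hh f hf => by
    rw [ContinuousLinearMap.star_eq_adjoint, ContinuousLinearMap.adjoint_inner_right]
    exact hh _ (hW1 f hf)
  have step2 : ∀ k : ℤ, ∀ h ∈ Wᗮ, ∀ᵐ x ∂S.μ, x ∈ E ∩ {x | D x ≠ 0} → h (S.σ k x) = 0 := by
    intro k
    induction k with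
    | zero => simpa only [S.σ_zero] using step1
    | succ k ih =>
      intro h hh
      filter_upwards [ih _ (o1 h hh), (S.mp k).quasiMeasurePreserving.ae (hT h)] with x a1 a2 hx
      rw [a1 hx, ← S.σ_add, add_comm] at a2
      exact (mul_eq_zero.mp a2.symm).resolve_left (h0 _ ((hinv _ x).mpr hx.1))
    | pred k ih =>
      intro h hh
      filter_upwards [ih _ (o2 h hh), (S.mp (-k)).quasiMeasurePreserving.ae (hT.star hw h)]
        with x a1 a2 hx
      rw [a1 hx, ← S.σ_add, add_comm, ← sub_eq_add_neg] at a2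
      exact (mul_eq_zero.mp a2.symm).resolve_left
        ((map_ne_zero _).mpr (h0 _ ((hinv _ x).mpr hx.1)))
  refine mem_of_orth hW fun h hh => ?_
  rw [L2.inner_def]
  refine integral_eq_zero_of_ae ?_
  filter_upwards [hu, ae_all_iff.mpr fun k : ℤ =>
    (S.mp k).quasiMeasurePreserving.ae (step2 (-k) h hh)] with x a1 a2
  by_cases hx : x ∈ ⋃ k, S.σ k ⁻¹' (E ∩ {x | D x ≠ 0})
  · obtain ⟨k, hk⟩ := Set.mem_iUnion.mp hx
    have := a2 k hk
    rw [← S.σ_add, neg_add_cancel, S.σ_zero] at this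
    simp [this]
  · simp [a1 hx]

theorem aperiodic_part {T : L2 S →L[ℂ] L2 S} {w : X → ℂ} {C : ℝ} (hw : Bdd w C)
    (hT : IsWt S T w 1) (hR : Red T) (hlog : Integrable (fun x => Real.log ‖w x‖) S.μ)
    {E : Set X} (hE : MeasurableSet E) (hinv : ∀ k x, S.σ k x ∈ E ↔ x ∈ E)
    (h0 : ∀ x ∈ E, w x ≠ 0)
    (hap : ∀ x ∈ E, ∀ j, j ≠ 0 → ∃ i, ‖w (S.σ i x)‖ ≠ ‖w (S.σ (i + j) x)‖) : S.μ E = 0 := by
  have := S.prob
  by_contra hpos
  obtain ⟨c, hc, h1⟩ := core_loc S w hw hE hinv hpos h0 hlog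
  set R : ℝ := (2 * (|C| + 1) + 2) ^ 2 with hRdef
  have hR0 : 0 ≤ R := by positivity
  set M : ℝ := 1 + ‖T‖ + R with hM
  have hM1 : 1 ≤ M := by linarith [norm_nonneg T]
  have hq : 0 < (2 * M / c) ^ 4 := by positivity
  set δ : ℝ := 1 / 2 / (2 * M / c) ^ 4 with hδ
  have hδ0 : 0 < δ := by positivity
  obtain ⟨s, hs1, hs2, θ, hθ, y, hy, hyn, hyt, hyc⟩ := h1 δ hδ0
  obtain ⟨E1, hsub, hE1, hinv1, hpos1, hfill⟩ := fill hw hT hE hinv h0 hap hy hθ hyt hyc
  have hw' : Bdd (fun x => -w (S.σ (-1) x)) C :=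
    ⟨(hw.meas.comp (S.mp (-1)).measurable).neg, fun x => by rw [norm_neg]; exact hw.le _⟩
  have hlog' : Integrable (fun x => Real.log ‖-w (S.σ (-1) x)‖) S.rev.μ := by
    simp only [norm_neg]
    exact (S.mp (-1)).integrable_comp_of_integrable hlog
  obtain ⟨c', hc', h2⟩ := core_loc S.rev _ hw' hE1 (fun k x => hinv1 (-k) x) hpos1
    (fun x hx => neg_ne_zero.mpr (h0 _ ((hinv _ x).mpr (hsub hx)))) hlog'
  obtain ⟨s', hs1', hs2', θ', hθ', z, hz, hzn, hzt, hzc⟩ := h2 δ hδ0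
  obtain ⟨φ, hφ, -, hφ2⟩ := exists_sep (W := ⊤) isClosed_univ hw hT (fun _ _ => trivial)
    (fun _ _ => trivial)
  have hsep : ∀ x ∈ E1, ∀ j, j ≠ 0 → φ x ≠ φ (S.rev.σ j x) := fun x hx j hj h => by
    obtain ⟨i, hi⟩ := hap x (hsub hx) (-j) (neg_ne_zero.mpr hj)
    exact hi (hφ2 x (-j) (fun i => h0 _ ((hinv i x).mpr (hsub hx))) h i)
  have hone : ∀ t : ℝ, ‖algebraMap ℂ (L2 S →L[ℂ] L2 S) (t : ℂ)‖ ≤ |t| := by
    intro t
    rw [Algebra.algebraMap_eq_smul_one, norm_smul, Complex.norm_real, Real.norm_eq_abs]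
    exact mul_le_of_le_one_right (abs_nonneg _) ContinuousLinearMap.norm_id_le
  obtain ⟨N, hN⟩ := hzc (θ' / 2) (by positivity)
  obtain ⟨n, hn1, hn⟩ := (hzt.and (eventually_ge_atTop N)).exists
  have hint : Integrable (E1.indicator fun _ => (1 : ℂ)) S.μ := (integrable_const _).indicator hE1
  have h3 := avg (S := S.rev) (hz n) hφ hsep hint bdd_one (η := θ' / 2) fun t => ?_
  · have e : ∀ x, E1.indicator (fun _ => (1 : ℂ)) x * (z n x 0 * 1) = z n x 0 := fun x => by
      by_cases hx : x ∈ E1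
      · simp [hx]
      · simp [(hz n).supp x hx]
    simp only [e] at h3
    linarith [Complex.re_le_norm (∫ x, z n x 0 ∂S.rev.μ)]
  have he : Bdd (fun x => (∏ i ∈ t, sg φ i x) * 1) 1 := by simpa using bdd_sg hφ t
  have hg := fun n => (hz n).bdd (S := S.rev) he
  obtain ⟨V, hV1, hV2, hV3, hV4⟩ := endgame2 T (s := s) (s' := s') hc (by linarith) hM1 hδ0.le
    (by rw [hδ]; field_simp; norm_num)
    ((norm_sub_le _ _).trans (by
      have h3 := hone s
      rw [abs_of_nonneg (by linarith)] at h3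
      linarith))
    ((norm_add_le _ _).trans (by
      have h3 := hone s'
      rw [abs_of_nonneg (by linarith)] at h3
      linarith))
    (fun n => pairing S.μ 2 _ (hg n)) (fun n => norm_pairing_le _ _) (fun n h => by
      rw [pairing_apply, S.dual_iter hw T hT s' (2 * n) (hg n) h]
      exact norm_integral_mul_le h (hzn _ he n))
  have hu := bdd_mul (bdd_ind hE1) (bdd_sg hφ t)
  have h4 := hV3 _ (hfill V hV1 hV2 (hR V hV1 hV2) (fun al hal F hF => hV4 _ F (fun n => by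
      refine norm_le_of_bound zero_le_one ?_
      filter_upwards [emb_ae (μ := S.μ) (p := 2) _ ((hy n).bdd (S := S) hal)] with x hx
      rw [hx]
      exact ((hy n).bdd (S := S) hal).le x) (fun n => by
      refine norm_le_of_bound (by positivity) ?_
      filter_upwards [S.iter_ae w T hT s (2 * n) _ _
        (emb_ae (μ := S.μ) (p := 2) _ ((hy n).bdd (S := S) hal))] with x hx
      rw [hx]
      exact hyn al hal n x) hF) (emb S.μ 2 _ hu) (by
      filter_upwards [emb_ae (μ := S.μ) (p := 2) _ hu] with x a1 hx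
      rw [a1]
      simp [hx]))
  have h5 : ∀ m, pairing S.μ 2 _ (hg m) (emb S.μ 2 _ hu) = ∫ x, E1.indicator (fun _ => (1 : ℂ)) x *
      ((∏ i ∈ t, sg φ i x) * app S.rev (z m) (fun x => (∏ i ∈ t, sg φ i x) * 1) x) ∂S.μ := by
    intro m
    rw [pairing_apply]
    refine integral_congr_ae ?_
    filter_upwards [emb_ae (μ := S.μ) (p := 2) _ hu] with x a1
    rw [a1, mul_assoc]
  show ‖∫ x, _ ∂S.μ‖ ≤ _
  rw [← h5, ← sub_zero (pairing S.μ 2 _ (hg n) (emb S.μ 2 _ hu))]
  refine le_of_tendsto (h4.const_sub _).norm ?_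
  filter_upwards [eventually_ge_atTop N] with m hm
  rw [pairing_apply, pairing_apply, ← integral_sub (integrable_mul_bdd _ (hg n))
    (integrable_mul_bdd _ (hg m))]
  refine le_trans (norm_integral_le_of_norm_le ?_ ?_) (hN n hn m hm _ fun x j => he.le (S.rev.σ j x))
  · exact (S.integrable_of_le ((hg n).meas.sub (hg m).meas).aestronglyMeasurable (1 + 1)
      fun x => (norm_sub_le _ _).trans (add_le_add ((hg n).le x) ((hg m).le x))).norm
  · filter_upwards [emb_ae (μ := S.μ) (p := 2) _ hu] with x a1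
    rw [← mul_sub, norm_mul, a1]
    exact mul_le_of_le_one_left (norm_nonneg _) (by simpa using hu.le x)

theorem normal_of_red {T : L2 S →L[ℂ] L2 S} {w : X → ℂ} {C : ℝ} (hw : Bdd w C)
    (hT : IsWt S T w 1) (hR : Red T) (hlog : Integrable (fun x => Real.log ‖w x‖) S.μ) :
    IsStarNormal T := by
  have hm : ∀ i, Measurable fun x => ‖w (S.σ i x)‖ := fun i =>
    (hw.meas.comp (S.mp i).measurable).norm
  let Per : ℤ → Set X := fun q => {x | ∀ i, ‖w (S.σ i x)‖ = ‖w (S.σ (i + q) x)‖}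
  have hPm : ∀ q, MeasurableSet (Per q) := fun q => by
    simp only [Per, Set.ofPred_forall]
    exact MeasurableSet.iInter fun i => measurableSet_eq_fun (hm _) (hm _)
  have hPi : ∀ q k x, S.σ k x ∈ Per q ↔ x ∈ Per q := fun q k x => by
    simp only [Per, Set.mem_ofPred_eq, ← S.σ_add]
    refine ⟨fun h i => ?_, fun h i => ?_⟩
    · have := h (i - k)
      rwa [sub_add_cancel, show i - k + q + k = i + q by ring] at this
    · rw [h, add_right_comm]
  let Lo : ℝ → Set X := fun ε => {x | ∀ i, ε < ‖w (S.σ i x)‖}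
  have hLm : ∀ ε, MeasurableSet (Lo ε) := fun ε => by
    simp only [Lo, Set.ofPred_forall]
    exact MeasurableSet.iInter fun i => measurableSet_lt measurable_const (hm _)
  have hLi : ∀ ε k x, S.σ k x ∈ Lo ε ↔ x ∈ Lo ε := fun ε k x => by
    simp only [Lo, Set.mem_ofPred_eq, ← S.σ_add]
    refine ⟨fun h i => ?_, fun h i => h _⟩
    have := h (i - k)
    rwa [sub_add_cancel] at this
  have h1 := aperiodic_part hw hT hR hlog (E := Lo 0 \ ⋃ q, ⋃ _ : q ≠ 0, Per q)
    ((hLm 0).diff (MeasurableSet.iUnion fun q => MeasurableSet.iUnion fun _ => hPm q))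
    (fun k x => by simp only [Set.mem_sdiff, Set.mem_iUnion, hLi, hPi])
    (fun x hx => by
      have := hx.1 0
      rwa [S.σ_zero, norm_pos_iff] at this)
    (fun x hx j hj => by
      by_contra h
      push Not at h
      exact hx.2 (Set.mem_iUnion₂.mpr ⟨j, hj, h⟩))
  have h2 : ∀ q n : ℕ, ∀ᵐ x ∂S.μ, x ∈ Per (q + 1 : ℕ) ∩ Lo (1 / (n + 1)) →
      ‖w (S.σ 1 x)‖ = ‖w x‖ := fun q n =>
    periodic_part hw hT hR ((hPm _).inter (hLm _))
      (fun k x => by simp only [Set.mem_inter_iff, hLi, hPi]) q.succ_pos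
      (ε := 1 / (n + 1)) (by positivity)
      (fun x hx => by
        have := hx.1 0
        rw [S.σ_zero, zero_add] at this
        exact this.symm)
      (fun x hx => by
        have := hx.2 0
        rw [S.σ_zero] at this
        exact this.le)
  have h3 : ∀ᵐ x ∂S.μ, ‖w (S.σ 1 x)‖ = ‖w x‖ := by
    filter_upwards [measure_eq_zero_iff_ae_notMem.mp h1, zero_part hw hT hR,
      ae_all_iff.mpr fun q => ae_all_iff.mpr (h2 q)] with x a1 a2 a3
    by_cases hx : w x = 0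
    · rw [(a2 1).mpr hx, hx]
    have hL : x ∈ Lo 0 := fun i => norm_pos_iff.mpr (mt (a2 i).mp hx)
    have hP : x ∈ ⋃ q, ⋃ _ : q ≠ 0, Per q := by
      by_contra h
      exact a1 ⟨hL, h⟩
    obtain ⟨j, hj, hP⟩ := Set.mem_iUnion₂.mp hP
    obtain ⟨q, hq⟩ : ∃ q : ℕ, x ∈ Per (q + 1 : ℕ) := by
      refine ⟨j.natAbs - 1, ?_⟩
      rw [Nat.sub_add_cancel (Int.natAbs_pos.mpr hj)]
      rcases Int.natAbs_eq j with h | h
      · rwa [← h]
      · intro i
        have := hP (i + j.natAbs)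
        rw [this]
        congr 3
        omega
    have hper : Function.Periodic (fun i => ‖w (S.σ i x)‖) ((q + 1 : ℕ) : ℤ) := fun i => (hq i).symm
    obtain ⟨i0, -, hi0⟩ := Finset.exists_min_image (Finset.Ico (0 : ℤ) (q + 1 : ℕ))
      (fun i => ‖w (S.σ i x)‖) ⟨0, by simp⟩
    obtain ⟨n, hn⟩ := exists_nat_one_div_lt (hL i0)
    refine a3 q n ⟨hq, fun i => hn.trans_le ?_⟩
    have h4 := hper.sub_zsmul_eq (x := i) (i / (q + 1 : ℕ))
    rw [← h4]
    refine hi0 _ ?_
    rw [smul_eq_mul, mul_comm, ← Int.emod_def, Finset.mem_Ico]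
    exact ⟨Int.emod_nonneg _ (by positivity), Int.emod_lt_of_pos _ (by positivity)⟩
  refine ⟨(hT.star_mul hw).unique ((hT.mul_star hw).congr ?_ rfl)⟩
  filter_upwards [(S.mp (-1)).quasiMeasurePreserving.ae h3] with x hx
  rw [← hx, ← S.σ_add, add_neg_cancel, S.σ_zero]

end Pool.Agent.P.MP_49c4d9_an.WT
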