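import Pool.Agent.P.MP_49c4d9_an.WT.Per

/-! Kernels of Schur squares localised on an invariant set. -/

open MeasureTheory Filter
open scoped ENNReal

noncomputable section
namespace Pool.Agent.P.MP_49c4d9_an.WT

open Pool.Agent.P.MP_f981b0_an.Bish

variable {X : Type*} [MeasurableSpace X] {S : Sys X}

/-- the system conditioned on an invariant set -/
def cnd (S : Sys X) {E : Set X} (hE : MeasurableSet E) (hinv : ∀ k x, S.σ k x ∈ E ↔ x ∈ E)
    (h0 : S.μ E ≠ 0) : Sys X where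
  μ := (S.μ E)⁻¹ • S.μ.restrict E
  prob := by
    have := S.prob
    exact ProbabilityTheory.cond_isProbabilityMeasure h0
  σ := S.σ
  σ_zero := S.σ_zero
  σ_add := S.σ_add
  mp k := by
    have h := (S.mp k).restrict_preimage hE
    rw [show S.σ k ⁻¹' E = E from Set.ext (hinv k)] at h
    exact h.smul_measure _

theorem integral_cnd {E : Set X} (hE : MeasurableSet E) (hinv : ∀ k x, S.σ k x ∈ E ↔ x ∈ E)
    (h0 : S.μ E ≠ 0) {V : Type*} [NormedAddCommGroup V] [NormedSpace ℝ V] (F : X → V) :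
    ∫ x, E.indicator F x ∂S.μ = S.μ.real E • ∫ x, F x ∂(cnd S hE hinv h0).μ := by
  have := S.prob
  show _ = _ • ∫ x, F x ∂((S.μ E)⁻¹ • S.μ.restrict E)
  rw [integral_indicator hE, integral_smul_measure, smul_smul, ENNReal.toReal_inv, Measure.real,
    mul_inv_cancel₀ (ENNReal.toReal_ne_zero.mpr ⟨h0, measure_ne_top _ _⟩), one_smul]

theorem integral_sq0_sub_le (S : Sys X) {c : X → ℤ → ℂ} (hc : ∀ x j, ‖c x j‖ ≤ 1)
    {p q : S.A} (hp : IsSelfAdjoint p) (hq : IsSelfAdjoint q) (hp1 : ‖p‖ ≤ 1)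
    (hq1 : ‖q‖ ≤ 1) {ε : ℝ} (hε : 0 < ε) (h : S.tr.t ((p - q) * (p - q)) ≤ ε ^ 2) :
    ∫ x, ‖sq0 p.1 p.1 x (c x) - sq0 q.1 q.1 x (c x)‖ ∂S.μ ≤ 2 * ε := by
  have := S.prob
  have hsa : star (p - q) = p - q := (hp.sub hq).star_eq
  have h1 : ∫ x, row (p - q).1 x 0 ^ 2 ∂S.μ ≤ ε ^ 2 := by
    rw [← S.tr_mul_star, hsa]
    exact h
  have hint : Integrable (fun x => row (p - q).1 x 0 ^ 2) S.μ :=
    S.integrable_of_le (S.meas_row_sq (p - q) 0).aestronglyMeasurable (‖(p - q).1‖ ^ 2) fun x => by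
      rw [Real.norm_eq_abs, abs_of_nonneg (by positivity)]
      exact pow_le_pow_left₀ (row_nonneg _ _ _) (row_le _ _ _) 2
  have h2 : ∀ x, ‖sq0 p.1 p.1 x (c x) - sq0 q.1 q.1 x (c x)‖ ≤
      ε + row (p - q).1 x 0 ^ 2 / ε := by
    intro x
    have e : sq0 p.1 p.1 x (c x) - sq0 q.1 q.1 x (c x) =
        sq0 (p.1 - q.1) p.1 x (c x) + sq0 q.1 (p.1 - q.1) x (c x) := by
      rw [sq0_sub_left _ _ _ x (hc x), sq0_sub_right _ _ _ x (hc x)]
      ring
    rw [e]
    have a1 := norm_sq0_le (p.1 - q.1) p.1 x (hc x)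
    have a2 := norm_sq0_le q.1 (p.1 - q.1) x (hc x)
    have b1 : row p.1 x 0 ≤ 1 := (row_le _ _ _).trans hp1
    have b2 : row q.1 x 0 ≤ 1 := (row_le _ _ _).trans hq1
    have r0 := row_nonneg (p.1 - q.1) x 0
    have e2 : (p - q).1 = p.1 - q.1 := rfl
    rw [e2]
    set r := row (p.1 - q.1) x 0
    have c1 : r * row p.1 x 0 ≤ r := mul_le_of_le_one_right r0 b1
    have c2 : row q.1 x 0 * r ≤ r := mul_le_of_le_one_left r0 b2
    have c3 : 2 * r ≤ ε + r ^ 2 / ε := by
      rw [← sub_nonneg]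
      have : ε + r ^ 2 / ε - 2 * r = (ε - r) ^ 2 / ε := by field_simp; ring
      rw [this]
      positivity
    linarith [norm_add_le (sq0 (p.1 - q.1) p.1 x (c x)) (sq0 q.1 (p.1 - q.1) x (c x))]
  calc _ ≤ ∫ x, (ε + row (p - q).1 x 0 ^ 2 / ε) ∂S.μ :=
        integral_mono_of_nonneg (Eventually.of_forall fun x => norm_nonneg _)
          ((integrable_const ε).add (hint.div_const ε)) (Eventually.of_forall h2)
    _ = ε + (∫ x, row (p - q).1 x 0 ^ 2 ∂S.μ) / ε := by
        rw [integral_add (integrable_const ε) (hint.div_const ε), integral_div]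
        simp
    _ ≤ ε + ε ^ 2 / ε := by gcongr
    _ = 2 * ε := by field_simp; ring

theorem diag_low (S : Sys X) {p : S.A} (hp : IsSelfAdjoint p) {θ : ℝ} (hθ : 0 < θ)
    (h : θ ≤ S.tr.t p) : θ ^ 2 ≤ (∫ x, ker p.1 x 0 0 * ker p.1 x 0 0 ∂S.μ).re := by
  have := S.prob
  have hreal : ∀ x, ker p.1 x 0 0 = ((ker p.1 x 0 0).re : ℂ) := by
    intro x
    have h1 : ker (star p).1 x 0 0 = (starRingEnd ℂ) (ker p.1 x 0 0) := ker_star _ x 0 0
    rw [hp.star_eq] at h1
    exact (Complex.conj_eq_iff_re.mp h1.symm).symm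
  have e : ∀ x, ker p.1 x 0 0 * ker p.1 x 0 0 = (((ker p.1 x 0 0).re ^ 2 : ℝ) : ℂ) := by
    intro x
    rw [hreal x]
    push_cast
    simp only [Complex.ofReal_re]
    ring
  simp only [e]
  rw [integral_complex_ofReal, Complex.ofReal_re]
  have hi1 : Integrable (fun x => (ker p.1 x 0 0).re) S.μ := (S.integrable_ker p 0 0).re
  have hi2 : Integrable (fun x => (ker p.1 x 0 0).re ^ 2) S.μ :=
    S.integrable_of_le
      ((Complex.measurable_re.comp (S.meas_ker p 0 0)).pow_const 2).aestronglyMeasurable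
      (‖p.1‖ ^ 2) fun x => by
        rw [norm_pow]
        exact pow_le_pow_left₀ (norm_nonneg _)
          ((Complex.abs_re_le_norm _).trans (norm_ker_le _ _ _ _)) 2
  have h2 := integral_mono ((hi1.const_mul (2 * θ)).sub (integrable_const (θ ^ 2))) hi2
    (fun x => by
      simp only [Pi.sub_apply]
      nlinarith [sq_nonneg ((ker p.1 x 0 0).re - θ)])
  simp only [Pi.sub_apply] at h2
  rw [integral_sub (hi1.const_mul (2 * θ)) (integrable_const (θ ^ 2)), integral_const_mul,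
    ← S.tr_apply] at h2
  simp only [integral_const, probReal_univ, smul_eq_mul, one_mul] at h2
  nlinarith

/-- measurable kernels with summable rows of norm at most one, vanishing off `E` -/
structure Kn (E : Set X) (y : X → ℤ → ℂ) : Prop where
  meas : ∀ j, Measurable fun x => y x j
  sum : ∀ x, Summable fun j => ‖y x j‖
  le : ∀ x, ∑' j, ‖y x j‖ ≤ 1
  supp : ∀ x ∉ E, ∀ j, y x j = 0

/-- a kernel applied to a function along orbits -/
def app (S : Sys X) (y : X → ℤ → ℂ) (al : X → ℂ) (x : X) : ℂ := ∑' j, y x j * al (S.σ j x)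

omit [MeasurableSpace X] in
theorem term_le' (y c : ℤ → ℂ) (hc : ∀ j, ‖c j‖ ≤ 1) (j : ℤ) : ‖y j * c j‖ ≤ ‖y j‖ := by
  rw [norm_mul]
  exact mul_le_of_le_one_right (norm_nonneg _) (hc j)

theorem Kn.summable {E : Set X} {y : X → ℤ → ℂ} (hy : Kn E y) (x : X) {c : ℤ → ℂ}
    (hc : ∀ j, ‖c j‖ ≤ 1) : Summable fun j => y x j * c j :=
  Summable.of_norm_bounded (hy.sum x) (term_le' _ _ hc)

theorem Kn.norm_le {E : Set X} {y : X → ℤ → ℂ} (hy : Kn E y) (x : X) {c : ℤ → ℂ}
    (hc : ∀ j, ‖c j‖ ≤ 1) : ‖∑' j, y x j * c j‖ ≤ 1 :=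
  (tsum_of_norm_bounded (hy.sum x).hasSum (term_le' _ _ hc)).trans (hy.le x)

theorem Kn.bdd {E : Set X} {y : X → ℤ → ℂ} (hy : Kn E y) {al : X → ℂ} (hal : Bdd al 1) :
    Bdd (app S y al) 1 :=
  ⟨Measurable.tsum fun j => (hy.meas j).mul (hal.meas.comp (S.mp j).measurable),
    fun x => hy.norm_le x fun _ => hal.le _⟩

theorem Kn.bdd_diag {E : Set X} {y : X → ℤ → ℂ} (hy : Kn E y) : Bdd (fun x => y x 0) 1 :=
  ⟨hy.meas 0, fun x => ((hy.sum x).le_tsum 0 fun _ _ => norm_nonneg _).trans (hy.le x)⟩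

theorem core_loc (S : Sys X) (w : X → ℂ) {C : ℝ} (hw : Bdd w C) {E : Set X}
    (hE : MeasurableSet E) (hinv : ∀ k x, S.σ k x ∈ E ↔ x ∈ E) (hpos : S.μ E ≠ 0)
    (h0 : ∀ x ∈ E, w x ≠ 0) (hlog : Integrable (fun x => Real.log ‖w x‖) S.μ) :
    ∃ c > 0, ∀ δ > 0, ∃ s : ℝ, c ≤ s ∧ s ≤ (2 * (|C| + 1) + 2) ^ 2 ∧ ∃ θ > 0,
      ∃ y : ℕ → X → ℤ → ℂ, (∀ n, Kn E (y n)) ∧
        (∀ al, Bdd al 1 → ∀ n x, ‖(S.Ts w s)^[2 * n] (app S (y n) al) x‖ ≤ δ ^ n) ∧
        (∀ᶠ n in atTop, θ ≤ (∫ x, y n x 0 ∂S.μ).re) ∧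
        (∀ η > 0, ∃ N, ∀ n ≥ N, ∀ m ≥ N, ∀ c : X → ℤ → ℂ, (∀ x j, ‖c x j‖ ≤ 1) →
          ∫ x, ‖∑' j, y n x j * c x j - ∑' j, y m x j * c x j‖ ∂S.μ ≤ η) := by
  have := S.prob
  set S0 := cnd S hE hinv hpos with hS0
  have hμ0 : 0 < S.μ.real E := ENNReal.toReal_pos hpos (measure_ne_top _ _)
  let a : X → ℂ := fun x => w x ^ ((2 : ℕ) : ℂ)⁻¹
  have ha2 : ∀ x, a x ^ 2 = w x := fun x => Complex.cpow_nat_inv_pow _ two_ne_zero
  have hn2 : ∀ x, ‖a x‖ ^ 2 = ‖w x‖ := fun x => by rw [← norm_pow, ha2]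
  have hC : 0 ≤ |C| + 1 := by positivity
  have ha : Bdd a (|C| + 1) := by
    refine ⟨hw.meas.pow_const _, fun x => ?_⟩
    have h1 := hw.le x
    have h2 := le_abs_self C
    nlinarith [hn2 x, sq_nonneg (‖a x‖ - 1), norm_nonneg (a x)]
  have ha0 : ∀ᵐ x ∂S0.μ, a x ≠ 0 := by
    refine Measure.ae_smul_measure ?_ _
    filter_upwards [ae_restrict_mem hE] with x hx h
    apply h0 x hx
    rw [← ha2, h]
    simp
  have halog : Integrable (fun x => Real.log ‖a x‖) S0.μ := by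
    refine Integrable.smul_measure (Integrable.restrict ?_) (ENNReal.inv_ne_top.mpr hpos)
    refine (hlog.const_mul (1 / 2)).congr (Eventually.of_forall fun x => ?_)
    simp only [← hn2, Real.log_pow]
    push_cast
    ring
  obtain ⟨c, hc, hsoft⟩ := S0.soft a ha hC ha0 halog
  refine ⟨c ^ 2, by positivity, fun δ hδ => ?_⟩
  set M : ℝ := 3 * (|C| + 1) + 2 with hM
  have hM1 : 1 ≤ M := by linarith
  have hM0 : 0 < M := by linarith
  obtain ⟨ζ, hζ1, hζ2, θ, hθ, p, hsa, hp1, hpn, hpt, hpc⟩ := hsoft (δ / (4 * M ^ 4)) (by positivity)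
  have hζ0 : 0 < ‖ζ‖ := hc.trans_le hζ1
  let s : ℝ := ‖ζ‖ ^ 2
  have hs0 : (s : ℂ) ≠ 0 := by exact_mod_cast (show s ≠ 0 by positivity)
  let lam : ℂ := ζ ^ 2 / s
  have hl : ‖lam‖ = 1 := by
    simp only [lam, s, norm_div, norm_pow, Complex.norm_real, norm_norm]
    field_simp
  have hζ : ζ ^ 2 = lam * s := by
    simp only [lam]
    field_simp
  set ind : X → ℂ := E.indicator fun _ => (1 : ℂ) with hind
  have hi : Bdd ind 1 := bdd_ind hE
  have hiσ : ∀ k x, ind (S.σ k x) = ind x := fun k x => by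
    by_cases hx : x ∈ E
    · rw [hind, Set.indicator_of_mem hx, Set.indicator_of_mem ((hinv k x).mpr hx)]
    · rw [hind, Set.indicator_of_notMem hx, Set.indicator_of_notMem (mt (hinv k x).mp hx)]
  have hle : ∀ n x j, ‖ker (p n).1 x 0 j * ker (p n).1 x 0 j * (lam ^ j * ind x)‖ ≤
      ‖ker (p n).1 x 0 j‖ * ‖ker (p n).1 x 0 j‖ := fun n x j =>
    term_le _ _ x (c := fun j => lam ^ j * ind x) (fun j => by
      rw [norm_mul, norm_zpow, hl, one_zpow, one_mul]; exact hi.le x) j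
  refine ⟨s, pow_le_pow_left₀ hc.le hζ1 2, pow_le_pow_left₀ hζ0.le hζ2 2, S.μ.real E * θ ^ 2,
    by positivity, fun n x j => ker (p n).1 x 0 j * ker (p n).1 x 0 j * (lam ^ j * ind x),
    fun n => ⟨fun j => ((S0.meas_ker _ 0 j).mul (S0.meas_ker _ 0 j)).mul (hi.meas.const_mul _),
      fun x => (summable_rows _ _ x).of_nonneg_of_le (fun _ => norm_nonneg _) (hle n x),
      fun x => ?_, fun x hx j => by simp [hind, hx]⟩, fun al hal n x => ?_, ?_, fun η hη => ?_⟩
  · refine Real.tsum_le_of_sum_le (fun _ => norm_nonneg _) fun t => ?_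
    refine ((Finset.sum_le_sum fun j _ => hle n x j).trans (sum_row_le _ _ x t)).trans ?_
    exact mul_le_one₀ ((row_le _ _ _).trans (hp1 n)) (row_nonneg _ _ _)
      ((row_le _ _ _).trans (hp1 n))
  · have hA : ‖S0.W a ha 1‖ ≤ |C| + 1 := S0.norm_W_le a ha hC 1
    have hX : ‖S0.W a ha 1 - algebraMap ℂ S0.A ζ‖ ≤ M := by
      refine (norm_sub_le _ _).trans ?_
      have : ‖algebraMap ℂ S0.A ζ‖ ≤ ‖ζ‖ := by
        rw [Algebra.algebraMap_eq_smul_one, norm_smul]
        exact mul_le_of_le_one_right (norm_nonneg _)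
          (lp.norm_le_of_forall_le (f := (1 : Big X)) zero_le_one fun _ => norm_one.le)
      linarith
    have hal' : Bdd (fun x => ind x * al x) 1 := by simpa using bdd_mul hi hal
    have h1 := S0.iter_bound hl hζ hal' a ha hM1 (by positivity : 0 ≤ δ / (4 * M ^ 4))
      (by linarith) hX (by linarith) (p n) (hp1 n) n (hpn n) (2 * n) 0 0 0 (by omega) x
    simp only [pow_zero, one_mul, ha2, zero_add] at h1
    have e : app S (fun x j => ker (p n).1 x 0 j * ker (p n).1 x 0 j * (lam ^ j * ind x)) al =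
        S0.Sq lam (fun x => ind x * al x) (p n) (p n) := by
      funext x
      refine tsum_congr fun j => ?_
      show _ = _ * (lam ^ j * (ind (S.σ j x) * al (S.σ j x)))
      rw [hiσ]
      ring
    rw [e]
    refine h1.trans (le_of_eq ?_)
    rw [show 2 * (2 * n) = 4 * n by ring, pow_mul, pow_mul, ← mul_pow, ← mul_pow]
    congr 1
    field_simp
    ring
  · filter_upwards [hpt] with n hn
    have h1 := diag_low S0 (hsa n) hθ hn
    have e : ∀ x, ker (p n).1 x 0 0 * ker (p n).1 x 0 0 * (lam ^ (0 : ℤ) * ind x) =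
        E.indicator (fun x => ker (p n).1 x 0 0 * ker (p n).1 x 0 0) x := fun x => by
      by_cases hx : x ∈ E <;> simp [hind, hx]
    simp only [e]
    rw [integral_cnd hE hinv hpos, Complex.real_smul, Complex.re_ofReal_mul]
    exact mul_le_mul_of_nonneg_left h1 hμ0.le
  · obtain ⟨N, hN⟩ := hpc ((η / 2) ^ 2) (by positivity)
    refine ⟨N, fun n hn m hm c hc => ?_⟩
    have h1 := integral_sq0_sub_le S0 (c := fun x j => lam ^ j * c x j) (fun x j => by
      rw [norm_mul, norm_zpow, hl, one_zpow, one_mul]; exact hc x j) (hsa n) (hsa m) (hp1 _) (hp1 _)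
      (by positivity : 0 < η / 2) (hN n hn m hm)
    have e : ∀ x, ‖∑' j, ker (p n).1 x 0 j * ker (p n).1 x 0 j * (lam ^ j * ind x) * c x j -
        ∑' j, ker (p m).1 x 0 j * ker (p m).1 x 0 j * (lam ^ j * ind x) * c x j‖ =
        E.indicator (fun x => ‖sq0 (p n).1 (p n).1 x (fun j => lam ^ j * c x j) -
          sq0 (p m).1 (p m).1 x (fun j => lam ^ j * c x j)‖) x := fun x => by
      by_cases hx : x ∈ E
      · simp [hind, hx, sq0, mul_assoc]
      · simp [hind, hx]
    simp only [e]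
    rw [integral_cnd hE hinv hpos, smul_eq_mul]
    have h2 : S.μ.real E ≤ 1 := measureReal_le_one
    have h3 := mul_le_mul h2 h1 (integral_nonneg fun _ => norm_nonneg _) zero_le_one
    linarith

theorem avg {E : Set X} {y : X → ℤ → ℂ} (hy : Kn E y) {φ : X → ℕ → Bool} (hφ : Measurable φ)
    (hsep : ∀ x ∈ E, ∀ j, j ≠ 0 → φ x ≠ φ (S.σ j x)) {h : X → ℂ} (hh : Integrable h S.μ)
    {al : X → ℂ} (hal : Bdd al 1) {η : ℝ}
    (H : ∀ s : Finset ℕ, ‖∫ x, h x * ((∏ i ∈ s, sg φ i x) *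
      app S y (fun x => (∏ i ∈ s, sg φ i x) * al x) x) ∂S.μ‖ ≤ η) :
    ‖∫ x, h x * (y x 0 * al x) ∂S.μ‖ ≤ η := by
  classical
  let e : Finset ℕ → X → ℂ := fun s x => ∏ i ∈ s, sg φ i x
  have he : ∀ s, Bdd (e s) 1 := fun s => bdd_sg hφ s
  have he' : ∀ s, Bdd (fun x => e s x * al x) 1 := fun s => by simpa using bdd_mul (he s) hal
  let χ : ℕ → X → ℤ → ℂ := fun m x j =>
    if ∀ i < m, φ x i = φ (S.σ j x) i then al (S.σ j x) else 0
  have hχ : ∀ m x j, ‖χ m x j‖ ≤ 1 := by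
    intro m x j
    simp only [χ]
    split_ifs
    · exact hal.le _
    · simp
  let G : ℕ → X → ℂ := fun m x => ∑' j, y x j * χ m x j
  have hG : ∀ m x, ∑ s ∈ (Finset.range m).powerset, e s x * app S y (fun x => e s x * al x) x =
      2 ^ m * G m x := by
    intro m x
    simp only [app, G, ← tsum_mul_left]
    rw [← Summable.tsum_finsetSum fun s _ =>
      (hy.summable x fun j => (he' s).le (S.σ j x)).mul_left (e s x)]
    refine tsum_congr fun j => ?_
    have e1 : ∀ s, e s x * (y x j * (e s (S.σ j x) * al (S.σ j x))) =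
        y x j * al (S.σ j x) * (e s x * e s (S.σ j x)) := fun s => by ring
    simp only [e1, ← Finset.mul_sum, e, sum_sg, χ]
    split_ifs <;> ring
  have hb : ∀ s, Bdd (fun x => e s x * app S y (fun x => e s x * al x) x) (1 * 1) := fun s =>
    bdd_mul (he s) (hy.bdd (he' s))
  have hint : ∀ s, Integrable (fun x => h x * (e s x * app S y (fun x => e s x * al x) x)) S.μ :=
    fun s => hh.mul_bdd (hb s).meas.aestronglyMeasurable (Eventually.of_forall (hb s).le)
  have hGm : ∀ m, Measurable (G m) := by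
    intro m
    have : G m = fun x => (2 ^ m)⁻¹ *
        ∑ s ∈ (Finset.range m).powerset, e s x * app S y (fun x => e s x * al x) x := by
      funext x
      rw [hG]
      field_simp
    rw [this]
    exact (Finset.measurable_sum _ fun s _ => (hb s).meas).const_mul _
  have hlim : ∀ x, Tendsto (fun m => G m x) atTop (nhds (y x 0 * al x)) := by
    intro x
    by_cases hx : x ∈ E
    swap
    · simp [G, hy.supp x hx]
    have e1 : y x 0 * al x = ∑' j : ℤ, y x j * (if j = 0 then al x else 0) := by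
      rw [tsum_eq_single 0]
      · simp
      · intro j hj
        simp [hj]
    rw [e1]
    refine tendsto_tsum_of_dominated_convergence (hy.sum x) (fun j => ?_)
      (Eventually.of_forall fun m j => term_le' _ _ (hχ m x) j)
    refine Tendsto.const_mul _ ?_
    by_cases hj : j = 0
    · subst hj
      simp [χ, S.σ_zero]
    · obtain ⟨i, hi⟩ := Function.ne_iff.mp (hsep x hx j hj)
      rw [if_neg hj]
      refine tendsto_const_nhds.congr' ?_
      filter_upwards [eventually_gt_atTop i] with m hm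
      simp only [χ]
      rw [if_neg fun h => hi (h i hm)]
  have hI := tendsto_integral_of_dominated_convergence (μ := S.μ) (F := fun m x => h x * G m x)
    (f := fun x => h x * (y x 0 * al x)) (fun x => ‖h x‖)
    (fun m => hh.aestronglyMeasurable.mul (hGm m).aestronglyMeasurable) hh.norm
    (fun m => Eventually.of_forall fun x => by
      rw [norm_mul]
      exact mul_le_of_le_one_right (norm_nonneg _) (hy.norm_le x (hχ m x)))
    (Eventually.of_forall fun x => (hlim x).const_mul _)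
  refine le_of_tendsto' hI.norm fun m => ?_
  have h1 : (2 : ℂ) ^ m * ∫ x, h x * G m x ∂S.μ = ∑ s ∈ (Finset.range m).powerset,
      ∫ x, h x * (e s x * app S y (fun x => e s x * al x) x) ∂S.μ := by
    rw [← integral_finsetSum _ fun s _ => hint s, ← integral_const_mul]
    refine integral_congr_ae (Eventually.of_forall fun x => ?_)
    simp only [← Finset.mul_sum, hG]
    ring
  have h2 := (norm_sum_le _ _).trans (Finset.sum_le_sum (s := (Finset.range m).powerset)
    fun s _ => H s)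
  rw [← h1, norm_mul, norm_pow, Complex.norm_two, Finset.sum_const, Finset.card_powerset,
    Finset.card_range, nsmul_eq_mul] at h2
  push_cast at h2
  exact le_of_mul_le_mul_left h2 (by positivity)

end Pool.Agent.P.MP_49c4d9_an.WT
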