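import Pool.Agent.P.MP_49c4d9_an.WT.Aper
import Pool.Agent.P.MP_f981b0_an.Bish.Strong

/-! Reductive weighted composition operators are normal. -/

open MeasureTheory Filter Topology
open scoped ENNReal

noncomputable section
namespace Pool.Agent.P.MP_49c4d9_an.WT

open Pool.Agent.P.MP_f981b0_an.Bish

variable {X : Type*} [MeasurableSpace X]

theorem main [StandardBorelSpace X] (μ : Measure X) [IsProbabilityMeasure μ]
    (τ : X → X) (hτ : MeasurePreserving τ μ μ) (w : X → ℂ) (hw : MemLp w ∞ μ)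
    (hlog : IntegrableOn (fun x => Real.log ‖w x‖) {x | w x ≠ 0} μ) :
    ∃ T : Lp ℂ 2 μ →L[ℂ] Lp ℂ 2 μ, (∀ f, T f =ᵐ[μ] fun x => w x * f (τ x)) ∧
      ((∀ K : Submodule ℂ (Lp ℂ 2 μ), IsClosed (K : Set (Lp ℂ 2 μ)) → (∀ f ∈ K, T f ∈ K) →
        ∀ f ∈ K, ContinuousLinearMap.adjoint T f ∈ K) → IsStarNormal T) := by
  classical
  obtain ⟨T, hT⟩ : ∃ T : Lp ℂ 2 μ →L[ℂ] Lp ℂ 2 μ, ∀ f, T f =ᵐ[μ] fun x => w x * f (τ x) := by
    refine ⟨((ContinuousLinearMap.mul ℂ ℂ).holderL μ ∞ 2 2 (hw.toLp w)).comp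
      (Lp.compMeasurePreservingₗᵢ ℂ τ hτ).toContinuousLinearMap, fun f => ?_⟩
    filter_upwards [(ContinuousLinearMap.mul ℂ ℂ).coeFn_holder (r := 2) (hw.toLp w)
      (Lp.compMeasurePreserving τ hτ f), hw.coeFn_toLp, Lp.coeFn_compMeasurePreserving f hτ]
      with x h1 h2 h3
    refine h1.trans ?_
    rw [h2, h3]
    rfl
  refine ⟨T, hT, fun hR => ?_⟩
  obtain ⟨v, C, hv, he⟩ := exists_bdd_version hw
  have hT' : ∀ f, T f =ᵐ[μ] fun x => v x * f (τ x) := fun f => by
    filter_upwards [hT f, he] with x h1 h2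
    rw [h1, h2]
  have hlog' : Integrable (fun x => Real.log ‖v x‖) μ := by
    have h1 : Integrable (fun x => Real.log ‖w x‖) μ :=
      hlog.integrable_of_ae_notMem_eq_zero (Eventually.of_forall fun x hx => by
        have : w x = 0 := by simpa using hx
        simp [this])
    refine h1.congr ?_
    filter_upwards [he] with x h2
    rw [h2]
  set Z : Set X := {x | v x = 0} with hZdef
  have hZ : MeasurableSet Z := hv.meas (measurableSet_singleton 0)
  set K := (LinearMap.range (T : Lp ℂ 2 μ →ₗ[ℂ] Lp ℂ 2 μ)).topologicalClosure with hK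
  have hKc : IsClosed (K : Set (Lp ℂ 2 μ)) := Submodule.isClosed_topologicalClosure _
  have hKT : ∀ f, T f ∈ K := fun f => Submodule.le_topologicalClosure _ ⟨f, rfl⟩
  have k1 : ∀ f ∈ Kᗮ, ∀ᵐ x ∂μ, x ∉ Z → f (τ x) = 0 := by
    intro f hf
    have h1 : T f = 0 := by
      rw [← inner_self_eq_zero (𝕜 := ℂ), ← ContinuousLinearMap.adjoint_inner_left]
      exact hf _ (hR K hKc (fun g _ => hKT g) _ (hKT f))
    have h2 := hT' f
    rw [h1] at h2
    filter_upwards [h2, Lp.coeFn_zero ℂ 2 μ] with x a1 a2 hx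
    rw [a2] at a1
    exact (mul_eq_zero.mp a1.symm).resolve_left hx
  have k2 : τ ⁻¹' Z =ᵐ[μ] Z := by
    refine ae_eq_of_ae_subset_of_measure_ge ?_ (hτ.measure_preimage hZ.nullMeasurableSet).ge
      (hτ.measurable hZ).nullMeasurableSet (measure_ne_top _ _)
    have h1 : emb μ 2 _ (bdd_ind hZ) ∈ Kᗮ := by
      rw [hK, Submodule.orthogonal_closure]
      rintro _ ⟨g, rfl⟩
      rw [L2.inner_def]
      refine integral_eq_zero_of_ae ?_
      filter_upwards [hT' g, emb_ae (μ := μ) (p := 2) _ (bdd_ind hZ)] with x a1 a2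
      show inner ℂ (T g x) _ = _
      rw [a1, a2]
      by_cases hx : x ∈ Z
      · simp [show v x = 0 from hx]
      · simp [hx]
    filter_upwards [k1 _ h1, hτ.quasiMeasurePreserving.ae (emb_ae (μ := μ) (p := 2) _ (bdd_ind hZ))]
      with x a1 a2 hx
    by_contra h
    rw [a1 h, Set.indicator_of_mem (show τ x ∈ Z from hx)] at a2
    exact zero_ne_one a2
  have k3 : ∀ᵐ x ∂μ, (τ x ∈ Z ↔ x ∈ Z) := by
    filter_upwards [k2] with x hx
    exact iff_of_eq hx
  have hτ' : MeasurePreserving (Z.piecewise id τ) μ μ := by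
    have hm : Measurable (Z.piecewise id τ) := measurable_id.piecewise hZ hτ.measurable
    have h1 : MeasurePreserving (Z.piecewise id τ) (μ.restrict Z) (μ.restrict Z) :=
      (MeasurePreserving.id _).congr hm (by
        filter_upwards [ae_restrict_mem hZ] with x hx
        rw [Set.piecewise_eq_of_mem _ _ _ hx])
    have h2 : MeasurePreserving (Z.piecewise id τ) (μ.restrict Zᶜ) (μ.restrict Zᶜ) := by
      have h3 := hτ.restrict_preimage hZ.compl
      rw [Set.preimage_compl, Measure.restrict_congr_set k2.compl] at h3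
      refine h3.congr hm ?_
      filter_upwards [ae_restrict_mem hZ.compl] with x hx
      rw [Set.piecewise_eq_of_notMem _ _ _ hx]
    have h3 := h1.add_measure h2
    rwa [Measure.restrict_add_restrict_compl hZ] at h3
  have k4 : ∀ u : Lp ℂ 2 μ, (∀ᵐ x ∂μ, x ∈ Z → u x = 0) → u ∈ K := by
    intro u hu
    have : CompleteSpace K := hKc.completeSpace_coe
    rw [← K.orthogonal_orthogonal]
    intro f hf
    have h1 : ∀ᵐ y ∂μ, y ∉ Z → f y = 0 := by
      have hm : MeasurableSet {y | y ∉ Z → f y = 0} := by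
        have : {y | y ∉ Z → f y = 0} = Z ∪ f ⁻¹' {0} := by
          ext y
          simp only [Set.mem_ofPred_eq, Set.mem_union, Set.mem_preimage, Set.mem_singleton_iff]
          tauto
        rw [this]
        exact hZ.union ((Lp.stronglyMeasurable f).measurable (measurableSet_singleton 0))
      have h2 : ∀ᵐ y ∂(μ.map τ), y ∉ Z → f y = 0 := by
        rw [ae_map_iff hτ.measurable.aemeasurable hm]
        filter_upwards [k1 f hf, k3] with x a1 a2 hx
        exact a1 (mt a2.mpr hx)
      rwa [hτ.map_eq] at h2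
    rw [L2.inner_def]
    refine integral_eq_zero_of_ae ?_
    filter_upwards [h1, hu] with x a1 a2
    by_cases hx : x ∈ Z
    · simp [a2 hx]
    · simp [a1 hx]
  have : Nonempty X := nonempty_of_isProbabilityMeasure μ
  have hg := measurableEmbedding_sigmoid_comp_embeddingReal X
  set g := unitInterval.sigmoid ∘ embeddingReal X
  have hgb : Bdd (fun x => ((g x : ℝ) : ℂ)) 1 :=
    ⟨Complex.measurable_ofReal.comp (measurable_subtype_coe.comp hg.measurable), fun x => by
      rw [Complex.norm_real, Real.norm_of_nonneg (g x).2.1]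
      exact (g x).2.2⟩
  obtain ⟨f, hf⟩ : ∃ f : ℕ → Lp ℂ 2 μ,
      ∀ᵐ x ∂μ, Tendsto (fun n => v x * f n (τ x)) atTop (𝓝 (v x * ((g x : ℝ) : ℂ))) := by
    have h1 : emb μ 2 _ (bdd_mul hv hgb) ∈
        closure (LinearMap.range (T : Lp ℂ 2 μ →ₗ[ℂ] Lp ℂ 2 μ) : Set _) := by
      rw [← Submodule.topologicalClosure_coe]
      refine k4 _ ?_
      filter_upwards [emb_ae (μ := μ) (p := 2) _ (bdd_mul hv hgb)] with x a1 hx
      rw [a1, show v x = 0 from hx, zero_mul]
    obtain ⟨u, hu, hlim⟩ := mem_closure_iff_seq_limit.mp h1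
    choose f hf using hu
    obtain ⟨φ, -, hφ⟩ := (tendstoInMeasure_of_tendsto_Lp hlim).exists_seq_tendsto_ae
    refine ⟨fun n => f (φ n), ?_⟩
    filter_upwards [hφ, emb_ae (μ := μ) (p := 2) _ (bdd_mul hv hgb),
      ae_all_iff.mpr fun n => hT' (f n)] with x h2 h3 h4
    rw [← h3]
    refine h2.congr fun n => ?_
    rw [← h4, ← hf]
    rfl
  have hF : Measurable fun y => limUnder atTop fun n => f n y :=
    (StronglyMeasurable.limUnder fun n => Lp.stronglyMeasurable (f n)).measurable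
  have hσm : Measurable fun y => hg.invFun (Set.projIcc 0 1 zero_le_one
      (limUnder atTop fun n => f n y).re) :=
    hg.measurable_invFun.comp (continuous_projIcc.measurable.comp (Complex.measurable_re.comp hF))
  obtain ⟨e, he'⟩ := exists_equiv_of_ae_inverse hτ' (measurable_id.piecewise hZ hσm) (by
    filter_upwards [hf, k3] with x hx h3
    by_cases h : x ∈ Z
    · rw [Set.piecewise_eq_of_mem _ _ _ h, id, Set.piecewise_eq_of_mem _ _ _ h, id]
    rw [Set.piecewise_eq_of_notMem _ _ _ h, Set.piecewise_eq_of_notMem _ _ _ (mt h3.mp h)]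
    have h1 : Tendsto (fun n => f n (τ x)) atTop (𝓝 ((g x : ℝ) : ℂ)) := by
      have := hx.const_mul (v x)⁻¹
      simpa only [inv_mul_cancel_left₀ (show v x ≠ 0 from h)] using this
    rw [h1.limUnder_eq, Complex.ofReal_re, Set.projIcc_val, hg.leftInverse_invFun])
  have he1 : Z.piecewise id τ =ᵐ[μ] e := by
    filter_upwards [he'] with x hx
    exact (hx 1).symm
  refine normal_of_red (S := Sys.ofEquiv μ e (hτ'.congr e.measurable he1)) hv (fun f => ?_) hR hlog'
  filter_upwards [hT' f, he1] with x h1 h2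
  refine h1.trans ?_
  show _ = v x * f (e x)
  by_cases h : x ∈ Z
  · rw [show v x = 0 from h, zero_mul, zero_mul]
  · rw [← h2, Set.piecewise_eq_of_notMem _ _ _ h]
    rfl

end Pool.Agent.P.MP_49c4d9_an.WT
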