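import Pool.Agent.P.MP_f981b0_an.Bish.Final

/-! Weighted composition operators on `L^2` and multipliers of reducing subspaces. -/

open MeasureTheory Filter
open scoped ENNReal

noncomputable section
namespace Pool.Agent.P.MP_49c4d9_an.WT

open Pool.Agent.P.MP_f981b0_an.Bish

variable {X : Type*} [MeasurableSpace X]

/-- square integrable functions -/
abbrev L2 (S : Sys X) : Type _ := Lp ℂ 2 S.μ

/-- `A` is the weighted composition operator with weight `b` and step `k` -/
def IsWt (S : Sys X) (A : L2 S →L[ℂ] L2 S) (b : X → ℂ) (k : ℤ) : Prop :=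
  ∀ f, A f =ᵐ[S.μ] fun x => b x * f (S.σ k x)

variable {S : Sys X}

theorem exists_isWt (S : Sys X) {b : X → ℂ} {M : ℝ} (hb : Bdd b M) (k : ℤ) :
    ∃ A, IsWt S A b k := by
  have hw : MemLp b ∞ S.μ :=
    memLp_top_of_bound hb.meas.aestronglyMeasurable M (Eventually.of_forall hb.le)
  refine ⟨((ContinuousLinearMap.mul ℂ ℂ).holderL S.μ ∞ 2 2 (hw.toLp b)).comp
    (Lp.compMeasurePreservingₗᵢ ℂ (S.σ k) (S.mp k)).toContinuousLinearMap, fun f => ?_⟩
  filter_upwards [(ContinuousLinearMap.mul ℂ ℂ).coeFn_holder (r := 2) (hw.toLp b)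
    (Lp.compMeasurePreserving (S.σ k) (S.mp k) f), hw.coeFn_toLp,
    Lp.coeFn_compMeasurePreserving f (S.mp k)] with x h1 h2 h3
  refine h1.trans ?_
  rw [h2, h3]
  rfl

namespace IsWt

variable {A B : L2 S →L[ℂ] L2 S} {b c : X → ℂ} {k l : ℤ}

theorem congr (h : IsWt S A b k) (e : ∀ᵐ x ∂S.μ, b x = c x) (hk : k = l) : IsWt S A c l := by
  intro f
  filter_upwards [h f, e] with x h1 h2
  rw [h1, h2, hk]

theorem unique (h : IsWt S A b k) (h' : IsWt S B b k) : A = B := by
  ext1 f
  exact Lp.ext ((h f).trans (h' f).symm)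

theorem mul (h : IsWt S A b k) (h' : IsWt S B c l) :
    IsWt S (A * B) (fun x => b x * c (S.σ k x)) (k + l) := by
  intro f
  filter_upwards [h (B f), (S.mp k).quasiMeasurePreserving.ae (h' f)] with x h1 h2
  refine h1.trans ?_
  rw [h2, ← S.σ_add, add_comm l k, mul_assoc]

theorem add (h : IsWt S A b k) (h' : IsWt S B c k) : IsWt S (A + B) (fun x => b x + c x) k := by
  intro f
  filter_upwards [Lp.coeFn_add (A f) (B f), h f, h' f] with x h1 h2 h3
  refine h1.trans ?_
  rw [Pi.add_apply, h2, h3, add_mul]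

theorem algebraMap (S : Sys X) (z : ℂ) : IsWt S (algebraMap ℂ _ z) (fun _ => z) 0 := by
  intro f
  filter_upwards [Lp.coeFn_smul z f] with x h1
  rw [S.σ_zero]
  exact h1

theorem one (S : Sys X) : IsWt S 1 (fun _ => 1) 0 := by
  simpa using algebraMap S 1

theorem pow (h : IsWt S A b 1) (n : ℕ) :
    IsWt S (A ^ n) (fun x => ∏ i ∈ Finset.range n, b (S.σ i x)) n := by
  induction n with
  | zero => simpa using one S
  | succ n ih =>
    rw [pow_succ]
    refine (ih.mul h).congr (Eventually.of_forall fun x => ?_) (by push_cast; rfl)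
    rw [Finset.prod_range_succ]

theorem star (h : IsWt S A b k) {M : ℝ} (hb : Bdd b M) :
    IsWt S (star A) (fun x => (starRingEnd ℂ) (b (S.σ (-k) x))) (-k) := by
  have hb' : Bdd (fun x => (starRingEnd ℂ) (b (S.σ (-k) x))) M :=
    ⟨Complex.continuous_conj.measurable.comp (hb.meas.comp (S.mp _).measurable), fun x => by
      rw [Complex.norm_conj]; exact hb.le _⟩
  obtain ⟨A', hA'⟩ := exists_isWt S hb' (-k)
  have : A' = Star.star A := by
    rw [ContinuousLinearMap.star_eq_adjoint, ContinuousLinearMap.eq_adjoint_iff]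
    intro f g
    rw [L2.inner_def, L2.inner_def, ← S.integral_σ (L2.integrable_inner _ _).aestronglyMeasurable k]
    refine integral_congr_ae ?_
    filter_upwards [(S.mp k).quasiMeasurePreserving.ae (hA' f), h g] with x h1 h2
    rw [h1, h2, ← S.σ_add, neg_add_cancel, S.σ_zero]
    simp only [RCLike.inner_apply, map_mul, Complex.conj_conj]
    ring
  rwa [← this]

end IsWt

/-- multiplication by the bounded function `c` maps `W` to itself -/
def OK (W : Submodule ℂ (L2 S)) (c : X → ℂ) : Prop :=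
  (∃ M, Bdd c M) ∧ ∀ A, IsWt S A c 0 → ∀ f ∈ W, A f ∈ W

variable {W : Submodule ℂ (L2 S)}

theorem bdd_mul {b c : X → ℂ} {M N : ℝ} (hb : Bdd b M) (hc : Bdd c N) :
    Bdd (fun x => b x * c x) (M * N) :=
  ⟨hb.meas.mul hc.meas, fun x => by
    rw [norm_mul]
    exact mul_le_mul (hb.le x) (hc.le x) (norm_nonneg _) ((norm_nonneg _).trans (hb.le x))⟩

theorem bdd_σ {b : X → ℂ} {M : ℝ} (hb : Bdd b M) (k : ℤ) : Bdd (fun x => b (S.σ k x)) M :=
  ⟨hb.meas.comp (S.mp k).measurable, fun _ => hb.le _⟩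

theorem bdd_conj {b : X → ℂ} {M : ℝ} (hb : Bdd b M) : Bdd (fun x => (starRingEnd ℂ) (b x)) M :=
  ⟨Complex.continuous_conj.measurable.comp hb.meas, fun x => by
    rw [Complex.norm_conj]; exact hb.le _⟩

theorem ok_of {c : X → ℂ} {M : ℝ} (hc : Bdd c M) {A : L2 S →L[ℂ] L2 S} (hA : IsWt S A c 0)
    (h : ∀ f ∈ W, A f ∈ W) : OK W c :=
  ⟨⟨M, hc⟩, fun _ hB => hA.unique hB ▸ h⟩

theorem OK.ex {c : X → ℂ} (h : OK W c) :
    ∃ M A, Bdd c M ∧ IsWt S A c 0 ∧ ∀ f ∈ W, A f ∈ W := by
  obtain ⟨⟨M, hM⟩, h2⟩ := h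
  obtain ⟨A, hA⟩ := exists_isWt S hM 0
  exact ⟨M, A, hM, hA, h2 A hA⟩

theorem ok_const (z : ℂ) : OK W fun _ => z :=
  ok_of (M := ‖z‖) ⟨measurable_const, fun _ => le_rfl⟩ (IsWt.algebraMap S z)
    fun _ hf => W.smul_mem z hf

theorem OK.mul {b c : X → ℂ} (hb : OK W b) (hc : OK W c) : OK W fun x => b x * c x := by
  obtain ⟨M, A, h1, h2, h3⟩ := hb.ex
  obtain ⟨N, B, h4, h5, h6⟩ := hc.ex
  refine ok_of (bdd_mul h1 h4) ((h2.mul h5).congr (Eventually.of_forall fun x => ?_) (by simp))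
    fun f hf => h3 _ (h6 f hf)
  rw [S.σ_zero]

theorem OK.add {b c : X → ℂ} (hb : OK W b) (hc : OK W c) : OK W fun x => b x + c x := by
  obtain ⟨M, A, h1, h2, h3⟩ := hb.ex
  obtain ⟨N, B, h4, h5, h6⟩ := hc.ex
  exact ok_of (M := M + N) ⟨h1.meas.add h4.meas, fun x =>
    (norm_add_le _ _).trans (add_le_add (h1.le x) (h4.le x))⟩ (h2.add h5)
    fun f hf => W.add_mem (h3 f hf) (h6 f hf)

theorem OK.prod {ι : Type*} {c : ι → X → ℂ} (hc : ∀ i, OK W (c i)) (s : Finset ι) :
    OK W fun x => ∏ i ∈ s, c i x := by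
  classical
  induction s using Finset.induction_on with
  | empty => simpa using ok_const 1
  | insert i s hi ih =>
    simp only [Finset.prod_insert hi]
    exact (hc i).mul ih

theorem mem_of_orth (hW : IsClosed (W : Set (L2 S))) {f : L2 S}
    (h : ∀ g ∈ Wᗮ, inner ℂ g f = 0) : f ∈ W := by
  have : CompleteSpace W := hW.completeSpace_coe
  rw [← W.orthogonal_orthogonal]
  exact fun g hg => h g hg

theorem ok_lim (hW : IsClosed (W : Set (L2 S))) {c : ℕ → X → ℂ} {c₀ : X → ℂ} {M : ℝ}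
    (hc : ∀ n, OK W (c n)) (hM : ∀ n x, ‖c n x‖ ≤ M)
    (hl : ∀ x, Tendsto (fun n => c n x) atTop (nhds (c₀ x))) : OK W c₀ := by
  have hm : ∀ n, Measurable (c n) := fun n => (hc n).1.choose_spec.meas
  have hb : Bdd c₀ M := ⟨measurable_of_tendsto_metrizable hm (tendsto_pi_nhds.mpr hl),
    fun x => le_of_tendsto' (hl x).norm fun n => hM n x⟩
  refine ⟨⟨M, hb⟩, fun A hA f hf => mem_of_orth hW fun g hg => ?_⟩
  have hi := L2.integrable_inner (𝕜 := ℂ) g f
  have h1 : ∀ n, ∫ x, c n x * inner ℂ (g x) (f x) ∂S.μ = 0 := by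
    intro n
    obtain ⟨N, B, -, h2, h3⟩ := (hc n).ex
    rw [← Submodule.inner_left_of_mem_orthogonal (h3 f hf) hg, L2.inner_def]
    refine integral_congr_ae ?_
    filter_upwards [h2 f] with x hx
    rw [hx, S.σ_zero, ← smul_eq_mul (c n x) (f x), inner_smul_right]
  have h2 := tendsto_integral_of_dominated_convergence (μ := S.μ)
    (F := fun n x => c n x * inner ℂ (g x) (f x)) (f := fun x => c₀ x * inner ℂ (g x) (f x))
    (fun x => M * ‖inner ℂ (g x) (f x)‖)
    (fun n => (hm n).aestronglyMeasurable.mul hi.aestronglyMeasurable) (hi.norm.const_mul M)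
    (fun n => Eventually.of_forall fun x => by
      rw [norm_mul]
      exact mul_le_mul_of_nonneg_right (hM n x) (norm_nonneg _))
    (Eventually.of_forall fun x => (hl x).mul_const _)
  simp only [h1] at h2
  rw [← tendsto_nhds_unique h2 tendsto_const_nhds, L2.inner_def]
  refine integral_congr_ae ?_
  filter_upwards [hA f] with x hx
  rw [hx, S.σ_zero, ← smul_eq_mul (c₀ x) (f x), inner_smul_right]

theorem ok_poly {b : X → ℝ} (hb : OK W fun x => (b x : ℂ)) (P : Polynomial ℝ) :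
    OK W fun x => ((P.eval (b x) : ℝ) : ℂ) := by
  induction P using Polynomial.induction_on with
  | C a => simpa using ok_const (a : ℂ)
  | add p q hp hq => simpa using hp.add hq
  | monomial n a h =>
    have := h.mul hb
    simpa [pow_succ, mul_assoc] using this

theorem ok_sign (hW : IsClosed (W : Set (L2 S))) {b : X → ℝ} (hb : OK W fun x => (b x : ℂ))
    (q : ℝ) : OK W fun x => if q < b x then 1 else -1 := by
  obtain ⟨M, hM⟩ := hb.1
  have hP : ∀ n : ℕ, ∃ P : Polynomial ℝ, ∀ t ∈ Set.Icc (-M) M,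
      |P.eval t - (2 * min 1 (n * max 0 (t - q)) - 1)| < 1 / ((n : ℝ) + 1) := fun n =>
    exists_polynomial_near_of_continuousOn _ _ _ (by fun_prop) _ (by positivity)
  choose P hP using hP
  have hmem : ∀ x, b x ∈ Set.Icc (-M) M := fun x => by
    have := hM.le x
    rw [Complex.norm_real, Real.norm_eq_abs] at this
    exact abs_le.mp this
  refine ok_lim hW (M := 2) (fun n => ok_poly hb (P n)) (fun n x => ?_) fun x => ?_
  · rw [Complex.norm_real, Real.norm_eq_abs]
    have h1 := abs_lt.mp (hP n _ (hmem x))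
    have h2 : 1 / ((n : ℝ) + 1) ≤ 1 := by
      rw [div_le_one (by positivity)]
      linarith [n.cast_nonneg (α := ℝ)]
    have h3 := min_le_left 1 (n * max 0 (b x - q))
    have h4 : 0 ≤ min 1 (n * max 0 (b x - q)) := le_min zero_le_one (by positivity)
    rw [abs_le]
    constructor <;> linarith [h1.1, h1.2]
  · have h1 : Tendsto (fun n : ℕ => (P n).eval (b x) - (2 * min 1 (n * max 0 (b x - q)) - 1)) atTop
        (nhds 0) :=
      squeeze_zero_norm (fun n => (hP n _ (hmem x)).le) tendsto_one_div_add_atTop_nhds_zero_nat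
    have h2 : Tendsto (fun n : ℕ => (2 * min 1 (n * max 0 (b x - q)) - 1 : ℝ)) atTop
        (nhds (if q < b x then 1 else -1)) := by
      split_ifs with h
      · refine tendsto_const_nhds.congr' ?_
        filter_upwards [(tendsto_natCast_atTop_atTop.atTop_mul_const
          (sub_pos.mpr h)).eventually_ge_atTop 1] with n hn
        rw [max_eq_right (sub_pos.mpr h).le, min_eq_left hn]
        norm_num
      · rw [max_eq_left (by linarith [not_lt.mp h])]
        simp
    have h3 := (Complex.continuous_ofReal.tendsto _).comp (h1.add h2)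
    simp only [sub_add_cancel, zero_add] at h3
    have e : (((if q < b x then 1 else -1 : ℝ)) : ℂ) = if q < b x then 1 else -1 := by
      split_ifs <;> simp
    rw [e] at h3
    exact h3

theorem exists_signs (hW : IsClosed (W : Set (L2 S))) {ι : Type*} [Countable ι] [Nonempty ι]
    (b : ι → X → ℝ) (hb : ∀ i, OK W fun x => (b i x : ℂ)) :
    ∃ φ : X → ℕ → Bool, Measurable φ ∧ (∀ i, OK W (sg φ i)) ∧
      ∀ x y, φ x = φ y → ∀ i, b i x = b i y := by
  obtain ⟨e, he⟩ := exists_surjective_nat (ι × ℚ)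
  have hm : ∀ i, Measurable (b i) := fun i =>
    Complex.measurable_re.comp (hb i).1.choose_spec.meas
  refine ⟨fun x n => decide (((e n).2 : ℝ) < b (e n).1 x), ?_, fun n => ?_, fun x y h i => ?_⟩
  · refine measurable_pi_lambda _ fun n => ?_
    refine measurable_to_bool ?_
    convert measurableSet_lt (measurable_const (a := ((e n).2 : ℝ))) (hm (e n).1) using 1
    ext x
    simp
  · convert ok_sign hW (hb (e n).1) (e n).2 using 2
    simp [sg]
  · refine eq_of_forall_rat_lt_iff_lt fun q => ?_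
    obtain ⟨n, hn⟩ := he (i, q)
    have := congrFun h n
    simpa [hn] using this

theorem exists_sep (hW : IsClosed (W : Set (L2 S))) {T : L2 S →L[ℂ] L2 S} {w : X → ℂ} {C : ℝ}
    (hw : Bdd w C) (hT : IsWt S T w 1) (h1 : ∀ f ∈ W, T f ∈ W) (h2 : ∀ f ∈ W, star T f ∈ W) :
    ∃ φ : X → ℕ → Bool, Measurable φ ∧ (∀ i, OK W (sg φ i)) ∧
      ∀ x j, (∀ i, w (S.σ i x) ≠ 0) → φ x = φ (S.σ j x) →
        ∀ i, ‖w (S.σ i x)‖ = ‖w (S.σ (i + j) x)‖ := by
  have hT' := hT.star hw
  let β : ℕ → X → ℝ := fun k x => ∏ i ∈ Finset.range k, ‖w (S.σ i x)‖ ^ 2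
  let γ : ℕ → X → ℝ := fun k x => ∏ i ∈ Finset.range k, ‖w (S.σ (-(i + 1)) x)‖ ^ 2
  have hβ : ∀ k, OK W fun x => (β k x : ℂ) := by
    intro k
    induction k with
    | zero => simpa [β] using ok_const 1
    | succ k ih =>
      obtain ⟨M, A, a1, a2, a3⟩ := ih.ex
      have e : ∀ x, w x * (β k (S.σ 1 x) : ℂ) * (starRingEnd ℂ) (w x) = β (k + 1) x := by
        intro x
        simp only [β, Finset.prod_range_succ', ← S.σ_add, Nat.cast_zero, S.σ_zero]
        rw [mul_right_comm, Complex.mul_conj', mul_comm]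
        push_cast
        rfl
      have hb := bdd_mul (bdd_mul hw (bdd_σ (S := S) a1 1)) (bdd_conj hw)
      simp only [e] at hb
      refine ok_of hb (((hT.mul a2).mul hT').congr (Eventually.of_forall fun x => ?_) (by simp))
        fun f hf => h1 _ (a3 _ (h2 f hf))
      rw [← e, ← S.σ_add]
      simp [S.σ_zero]
  have hγ : ∀ k, OK W fun x => (γ k x : ℂ) := by
    intro k
    induction k with
    | zero => simpa [γ] using ok_const 1
    | succ k ih =>
      obtain ⟨M, A, a1, a2, a3⟩ := ih.ex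
      have e : ∀ x, (starRingEnd ℂ) (w (S.σ (-1) x)) * (γ k (S.σ (-1) x) : ℂ) * w (S.σ (-1) x) =
          γ (k + 1) x := by
        intro x
        simp only [γ, Finset.prod_range_succ', ← S.σ_add, Nat.cast_zero, zero_add]
        rw [mul_right_comm, Complex.conj_mul', mul_comm]
        push_cast
        simp only [neg_add]
      have hb := bdd_mul (bdd_mul (bdd_conj (bdd_σ (S := S) hw (-1))) (bdd_σ (S := S) a1 (-1)))
        (bdd_σ (S := S) hw (-1))
      simp only [e] at hb
      refine ok_of hb (((hT'.mul a2).mul hT).congr (Eventually.of_forall fun x => ?_) (by simp))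
        fun f hf => h2 _ (a3 _ (h1 f hf))
      rw [← e, add_zero]
  obtain ⟨φ, hφ, h3, h4⟩ := exists_signs hW (Sum.elim β γ) (by rintro (k | k); exacts [hβ k, hγ k])
  refine ⟨φ, hφ, h3, fun x j hx h i => ?_⟩
  have h5 := h4 _ _ h
  rw [← sq_eq_sq₀ (norm_nonneg _) (norm_nonneg _), S.σ_add]
  rcases i with n | n
  · have a1 : β (n + 1) x = β (n + 1) (S.σ j x) := h5 (Sum.inl (n + 1))
    have a2 : β n x = β n (S.σ j x) := h5 (Sum.inl n)
    have a3 : β n x ≠ 0 := Finset.prod_ne_zero_iff.mpr fun i _ =>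
      pow_ne_zero _ (norm_ne_zero_iff.mpr (hx _))
    have a4 : ∀ y, β (n + 1) y = β n y * ‖w (S.σ n y)‖ ^ 2 := fun y => Finset.prod_range_succ _ _
    rw [a4, a4, ← a2] at a1
    exact mul_left_cancel₀ a3 a1
  · have a1 : γ (n + 1) x = γ (n + 1) (S.σ j x) := h5 (Sum.inr (n + 1))
    have a2 : γ n x = γ n (S.σ j x) := h5 (Sum.inr n)
    have a3 : γ n x ≠ 0 := Finset.prod_ne_zero_iff.mpr fun i _ =>
      pow_ne_zero _ (norm_ne_zero_iff.mpr (hx _))
    have a4 : ∀ y, γ (n + 1) y = γ n y * ‖w (S.σ (-(n + 1)) y)‖ ^ 2 :=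
      fun y => Finset.prod_range_succ _ _
    rw [a4, a4, ← a2] at a1
    exact mul_left_cancel₀ a3 a1

end Pool.Agent.P.MP_49c4d9_an.WT
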