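import Mathlib

/-! An element that is local for the functional calculus of a unitary `U` and commutes with a
positive power of `U` commutes with `U`. -/

open Polynomial

noncomputable section
namespace Pool.Agent.P.MP_49c4d9_an.WT

/-- the unit circle -/
abbrev S1 : Set ℂ := Metric.sphere 0 1

/-- the coordinate function of the unit circle -/
abbrev zc : C(S1, ℂ) := .restrict S1 (.id ℂ)

/-- rotation of the unit circle -/
def rotc (l : ℂ) (hl : ‖l‖ = 1) : C(S1, S1) :=
  ⟨fun z => ⟨l * z, by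
    have := z.2
    simp only [mem_sphere_iff_norm, sub_zero] at this ⊢
    rw [norm_mul, hl, this, one_mul]⟩, by fun_prop⟩

variable {A : Type*} [CStarAlgebra A]

theorem star_zc_mul : star zc * zc = 1 := by
  ext z
  have := z.2
  simp only [mem_sphere_iff_norm, sub_zero] at this
  show (starRingEnd ℂ) (z : ℂ) * z = 1
  rw [Complex.conj_mul', this]
  simp

theorem twist (Φ : C(S1, ℂ) →⋆ₐ[ℂ] A) (hΦ : Continuous Φ) {B : A} {l : ℂ} (hl : ‖l‖ = 1)
    (h : Φ zc * B = l • (B * Φ zc)) (f : C(S1, ℂ)) : Φ f * B = B * Φ (f.comp (rotc l hl)) := by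
  have e1 : zc.comp (rotc l hl) = l • zc := rfl
  have u1 : star (Φ zc) * Φ zc = 1 := by rw [← map_star, ← map_mul, star_zc_mul, map_one]
  have u2 : Φ zc * star (Φ zc) = 1 := by
    rw [← map_star, ← map_mul, mul_comm, star_zc_mul, map_one]
  induction f using ContinuousMap.induction_on_of_compact with
  | const r =>
    have e : ContinuousMap.const S1 r = algebraMap ℂ C(S1, ℂ) r := by ext; simp
    rw [ContinuousMap.const_comp, e, AlgHomClass.commutes, Algebra.commutes]
  | id => rw [e1, map_smul, mul_smul_comm, h]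
  | star_id =>
    have e2 : (star zc).comp (rotc l hl) = star (l • zc) := rfl
    rw [e2, map_star, map_star, map_smul, star_smul, mul_smul_comm]
    have h2 : B * star (Φ zc) = l • (star (Φ zc) * B) := by
      calc B * star (Φ zc) = star (Φ zc) * (Φ zc * B) * star (Φ zc) := by
            rw [← mul_assoc, u1, one_mul]
        _ = l • (star (Φ zc) * B * (Φ zc * star (Φ zc))) := by
            rw [h, mul_smul_comm, smul_mul_assoc]
            simp only [mul_assoc]
        _ = _ := by rw [u2, mul_one]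
    rw [h2, smul_smul, Complex.star_def, Complex.conj_mul', hl]
    simp
  | add f g hf hg =>
    have e : (f + g).comp (rotc l hl) = f.comp (rotc l hl) + g.comp (rotc l hl) := rfl
    rw [e, map_add, map_add, add_mul, mul_add, hf, hg]
  | mul f g hf hg =>
    have e : (f * g).comp (rotc l hl) = f.comp (rotc l hl) * g.comp (rotc l hl) := rfl
    rw [e, map_mul, map_mul, mul_assoc, hg, ← mul_assoc, hf, mul_assoc]
  | frequently f hf =>
    exact hf.mem_of_closed (isClosed_eq (hΦ.mul continuous_const)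
      (continuous_const.mul (hΦ.comp (ContinuousMap.continuous_precomp _))))

theorem commute_of_zc (Φ : C(S1, ℂ) →⋆ₐ[ℂ] A) (hΦ : Continuous Φ) {B : A}
    (h : Φ zc * B = B * Φ zc) (f : C(S1, ℂ)) : Φ f * B = B * Φ f := by
  rw [twist Φ hΦ (l := 1) norm_one (by rw [h, one_smul]) f]
  congr 2
  ext z
  simp [rotc]

/-- `B` is local for the functional calculus `Φ` -/
def Loc (Φ : C(S1, ℂ) →⋆ₐ[ℂ] A) (B : A) : Prop := ∀ f g, f * g = 0 → Φ f * B * Φ g = 0

theorem eigen_zero (Φ : C(S1, ℂ) →⋆ₐ[ℂ] A) (hΦ : Continuous Φ) {B : A} (hB : Loc Φ B) {l : ℂ}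
    (hl1 : l ≠ 1) (h : Φ zc * B * star (Φ zc) = l • B) : B = 0 := by
  have u1 : star (Φ zc) * Φ zc = 1 := by rw [← map_star, ← map_mul, star_zc_mul, map_one]
  have u2 : Φ zc * star (Φ zc) = 1 := by
    rw [← map_star, ← map_mul, mul_comm, star_zc_mul, map_one]
  by_contra hB0
  have hl : ‖l‖ = 1 := by
    have hu : Φ zc ∈ unitary A := ⟨u1, u2⟩
    have h1 := congrArg norm h
    rw [CStarRing.norm_mul_mem_unitary _ (Unitary.star_mem hu),
      CStarRing.norm_mem_unitary_mul _ hu, norm_smul] at h1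
    exact (mul_left_inj' (norm_ne_zero_iff.mpr hB0)).mp (h1.symm.trans (one_mul _).symm)
  have h' : Φ zc * B = l • (B * Φ zc) := by
    rw [← smul_mul_assoc, ← h, mul_assoc, u1, mul_one]
  have hl' : ‖l⁻¹‖ = 1 := by rw [norm_inv, hl, inv_one]
  have hl0 : l ≠ 0 := by
    rintro rfl
    simp at hl
  let I : Ideal C(S1, ℂ) :=
    { carrier := {g | B * Φ g = 0}
      add_mem' := fun {f g} hf hg => by
        simp only [Set.mem_ofPred_eq] at hf hg ⊢
        rw [map_add, mul_add, hf, hg, add_zero]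
      zero_mem' := by simp
      smul_mem' := fun c g hg => by
        simp only [Set.mem_ofPred_eq] at hg ⊢
        rw [smul_eq_mul, mul_comm c, map_mul, ← mul_assoc, hg, zero_mul] }
  have hI : IsClosed (I : Set C(S1, ℂ)) := isClosed_eq (continuous_const.mul hΦ) continuous_const
  have hr : 0 < ‖l - 1‖ / 2 := half_pos (norm_pos_iff.mpr (sub_ne_zero.mpr hl1))
  have hU : ContinuousMap.setOfIdeal I = Set.univ := by
    refine Set.eq_univ_of_forall fun z0 => ContinuousMap.mem_setOfIdeal.mpr ?_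
    let g : C(S1, ℂ) := ⟨fun z => ((max 0 (‖l - 1‖ / 2 - ‖(z : ℂ) - z0‖) : ℝ) : ℂ), by fun_prop⟩
    have e : (g.comp (rotc l⁻¹ hl')).comp (rotc l hl) = g := by
      ext z
      simp [g, rotc, hl0]
    have hz : g.comp (rotc l⁻¹ hl') * g = 0 := by
      ext z
      have hz1 : ‖(z : ℂ)‖ = 1 := by simp
      have h3 : ‖l - 1‖ ≤ ‖l⁻¹ * z - z0‖ + ‖(z : ℂ) - z0‖ := by
        have e3 : l - 1 = l * (((z : ℂ) - z0) - (l⁻¹ * z - z0)) * (z : ℂ)⁻¹ := by
          have : (z : ℂ) ≠ 0 := by
            intro h0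
            rw [h0] at hz1
            simp at hz1
          field_simp
          ring
        rw [e3, norm_mul, norm_mul, norm_inv, hl, hz1, inv_one, one_mul, mul_one, add_comm]
        exact norm_sub_le _ _
      show ((max 0 (‖l - 1‖ / 2 - ‖l⁻¹ * (z : ℂ) - z0‖) : ℝ) : ℂ) *
        ((max 0 (‖l - 1‖ / 2 - ‖(z : ℂ) - z0‖) : ℝ) : ℂ) = 0
      rcases le_total (‖l - 1‖ / 2) ‖(z : ℂ) - z0‖ with h4 | h4
      · rw [max_eq_left (b := ‖l - 1‖ / 2 - ‖(z : ℂ) - z0‖) (by linarith)]
        simp
      · rw [max_eq_left (b := ‖l - 1‖ / 2 - ‖l⁻¹ * (z : ℂ) - z0‖) (by linarith)]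
        simp
    refine ⟨g * g, ?_, ?_⟩
    · have h5 := hB _ _ hz
      rw [twist Φ hΦ hl h', e, mul_assoc, ← map_mul] at h5
      exact h5
    · show ((max 0 (‖l - 1‖ / 2 - ‖(z0 : ℂ) - z0‖) : ℝ) : ℂ) *
        ((max 0 (‖l - 1‖ / 2 - ‖(z0 : ℂ) - z0‖) : ℝ) : ℂ) ≠ 0
      rw [sub_self, norm_zero, sub_zero, max_eq_right hr.le]
      exact mul_ne_zero (Complex.ofReal_ne_zero.mpr hr.ne') (Complex.ofReal_ne_zero.mpr hr.ne')
  have h1 : (1 : C(S1, ℂ)) ∈ I := by
    rw [← ContinuousMap.idealOfSet_ofIdeal_isClosed hI, hU, ContinuousMap.mem_idealOfSet]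
    simp
  apply hB0
  have h2 : B * Φ 1 = 0 := h1
  rwa [map_one, mul_one] at h2

theorem commute_of_loc (Φ : C(S1, ℂ) →⋆ₐ[ℂ] A) (hΦ : Continuous Φ) {B : A} (hB : Loc Φ B) {q : ℕ}
    (hq : 0 < q) (h : Φ zc ^ q * B = B * Φ zc ^ q) : Φ zc * B = B * Φ zc := by
  have u1 : star (Φ zc) * Φ zc = 1 := by rw [← map_star, ← map_mul, star_zc_mul, map_one]
  have u2 : Φ zc * star (Φ zc) = 1 := by
    rw [← map_star, ← map_mul, mul_comm, star_zc_mul, map_one]
  let α : Module.End ℂ A := (LinearMap.mulRight ℂ (star (Φ zc))).comp (LinearMap.mulLeft ℂ (Φ zc))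
  have hα : ∀ Y, α Y = Φ zc * Y * star (Φ zc) := fun _ => rfl
  let L : Submodule ℂ A :=
    { carrier := {Y | Loc Φ Y}
      add_mem' := fun {Y Z} hY hZ f g hfg => by
        rw [mul_add, add_mul, hY f g hfg, hZ f g hfg, add_zero]
      zero_mem' := fun f g _ => by simp
      smul_mem' := fun c Y hY f g hfg => by
        rw [mul_smul_comm, smul_mul_assoc, hY f g hfg, smul_zero] }
  have hαL : ∀ Y ∈ L, α Y ∈ L := by
    intro Y hY f g hfg
    have h1 := hY (f * zc) (star zc * g) (by
      rw [mul_assoc, ← mul_assoc zc, mul_comm zc, star_zc_mul, one_mul, hfg])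
    rw [map_mul, map_mul, map_star] at h1
    rw [hα, ← h1]
    simp only [mul_assoc]
  have hpoly : ∀ (P : ℂ[X]) Y, Y ∈ L → aeval α P Y ∈ L := by
    intro P Y hY
    induction P using Polynomial.induction_on' with
    | add p r hp hr => rw [map_add, LinearMap.add_apply]; exact L.add_mem hp hr
    | monomial n a =>
      rw [aeval_monomial, Module.End.mul_apply, Module.algebraMap_end_apply]
      refine L.smul_mem _ ?_
      induction n with
      | zero => simpa using hY
      | succ n ih => rw [pow_succ', Module.End.mul_apply]; exact hαL _ ih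
  have hinj : ∀ (n : ℕ) (P : ℂ[X]), P.natDegree = n → P.eval 1 ≠ 0 → ∀ Y ∈ L, aeval α P Y = 0 →
      Y = 0 := by
    intro n
    induction n with
    | zero =>
      intro P hP h1 Y _ hY
      rw [eq_C_of_natDegree_eq_zero hP] at h1 hY
      rw [aeval_C, Module.algebraMap_end_apply] at hY
      rw [eval_C] at h1
      exact (smul_eq_zero.mp hY).resolve_left h1
    | succ n ih =>
      intro P hP h1 Y hYL hY
      obtain ⟨l, hl⟩ := IsAlgClosed.exists_root P
        (by rw [degree_eq_natDegree (by rintro rfl; simp at hP), hP]; exact_mod_cast n.succ_ne_zero)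
      obtain ⟨Q, rfl⟩ := dvd_iff_isRoot.mpr hl
      rw [eval_mul] at h1
      have hQ : Q ≠ 0 := by
        rintro rfl
        simp at h1
      rw [natDegree_mul (X_sub_C_ne_zero l) hQ, natDegree_X_sub_C] at hP
      refine ih Q (by omega) (right_ne_zero_of_mul h1) Y hYL ?_
      refine eigen_zero Φ hΦ (hpoly Q Y hYL) (l := l) ?_ ?_
      · rintro rfl
        simp at h1
      · rw [map_mul, Module.End.mul_apply, map_sub, aeval_X, aeval_C, LinearMap.sub_apply,
          Module.algebraMap_end_apply, sub_eq_zero, hα] at hY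
        exact hY
  have hpow : ∀ n : ℕ, (α ^ n) B = Φ zc ^ n * B * star (Φ zc) ^ n := by
    intro n
    induction n with
    | zero => simp
    | succ n ih =>
      rw [pow_succ', Module.End.mul_apply, ih, hα, pow_succ' (Φ zc), pow_succ (star (Φ zc))]
      simp only [mul_assoc]
  have h1 : (α ^ q) B = B := by
    rw [hpow, h, mul_assoc, ← Commute.mul_pow (by rw [Commute, SemiconjBy, u1, u2]), u2, one_pow,
      mul_one]
  have h2 := hinj _ (∑ i ∈ Finset.range q, X ^ i) rfl (by simpa [eval_finsetSum] using hq.ne')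
    (α B - B) (L.sub_mem (hαL B hB) hB) (by
      have e : α B - B = aeval α (X - 1 : ℂ[X]) B := by simp
      rw [e, ← Module.End.mul_apply, ← map_mul, geom_sum_mul]
      simp [h1])
  rw [sub_eq_zero, hα] at h2
  conv_rhs => rw [← h2, mul_assoc, u1, mul_one]

theorem exists_fc {U : A} (hU : U ∈ unitary A) :
    ∃ Φ : C(S1, ℂ) →⋆ₐ[ℂ] A, Continuous Φ ∧ Φ zc = U := by
  have hn : IsStarNormal U := isStarNormal_of_mem_unitary hU
  exact ⟨cfcHomSuperset hn (spectrum.subset_circle_of_unitary hU), cfcHomSuperset_continuous _ _,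
    cfcHomSuperset_id _ _⟩

end Pool.Agent.P.MP_49c4d9_an.WT
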