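import Pool.Agent.P.MP_49c4d9_an.WT.Op
import Pool.Agent.P.MP_49c4d9_an.WT.Unit

/-! The part of the space where the weight vanishes or its modulus is periodic. -/

open MeasureTheory Filter
open scoped ENNReal

noncomputable section
namespace Pool.Agent.P.MP_49c4d9_an.WT

open Pool.Agent.P.MP_f981b0_an.Bish

variable {X : Type*} [MeasurableSpace X] {S : Sys X}

/-- every closed invariant subspace is invariant under the adjoint -/
def Red (T : L2 S →L[ℂ] L2 S) : Prop :=
  ∀ K : Submodule ℂ (L2 S), IsClosed (K : Set (L2 S)) → (∀ f ∈ K, T f ∈ K) → ∀ f ∈ K, star T f ∈ K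

theorem bdd_one : Bdd (fun _ : X => (1 : ℂ)) 1 := ⟨measurable_const, fun _ => by simp⟩

theorem bdd_ind {E : Set X} (hE : MeasurableSet E) : Bdd (E.indicator fun _ => (1 : ℂ)) 1 :=
  ⟨measurable_const.indicator hE, fun x => by
    by_cases hx : x ∈ E
    · rw [Set.indicator_of_mem hx, norm_one]
    · rw [Set.indicator_of_notMem hx, norm_zero]; exact zero_le_one⟩

theorem IsWt.ae_eq {A : L2 S →L[ℂ] L2 S} {b c : X → ℂ} {k : ℤ} (h : IsWt S A b k)
    (h' : IsWt S A c k) : ∀ᵐ x ∂S.μ, b x = c x := by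
  have := S.prob
  filter_upwards [h (emb S.μ 2 _ bdd_one), h' (emb S.μ 2 _ bdd_one),
    (S.mp k).quasiMeasurePreserving.ae (emb_ae (μ := S.μ) (p := 2) _ bdd_one)] with x h1 h2 h3
  rw [h1, h3, mul_one, mul_one] at h2
  exact h2

theorem IsWt.mul_star {T : L2 S →L[ℂ] L2 S} {w : X → ℂ} {C : ℝ} (hw : Bdd w C)
    (hT : IsWt S T w 1) : IsWt S (T * Star.star T) (fun x => ((‖w x‖ ^ 2 : ℝ) : ℂ)) 0 := by
  refine (hT.mul (hT.star hw)).congr (Eventually.of_forall fun x => ?_) (by simp)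
  rw [← S.σ_add, neg_add_cancel, S.σ_zero, Complex.mul_conj']
  push_cast
  rfl

theorem IsWt.star_mul {T : L2 S →L[ℂ] L2 S} {w : X → ℂ} {C : ℝ} (hw : Bdd w C)
    (hT : IsWt S T w 1) :
    IsWt S (Star.star T * T) (fun x => ((‖w (S.σ (-1) x)‖ ^ 2 : ℝ) : ℂ)) 0 := by
  refine ((hT.star hw).mul hT).congr (Eventually.of_forall fun x => ?_) (by simp)
  rw [Complex.conj_mul']
  push_cast
  rfl

theorem zero_part {T : L2 S →L[ℂ] L2 S} {w : X → ℂ} {C : ℝ} (hw : Bdd w C) (hT : IsWt S T w 1)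
    (hR : Red T) : ∀ᵐ x ∂S.μ, ∀ i, (w (S.σ i x) = 0 ↔ w x = 0) := by
  have := S.prob
  have hZ : MeasurableSet {x | w x = 0} := hw.meas (measurableSet_singleton 0)
  have hA : MeasurableSet (S.σ (-1) ⁻¹' {x | w x = 0}) := (S.mp _).measurable hZ
  have h1 : T (emb S.μ 2 _ (bdd_ind hA)) = 0 := by
    refine Lp.ext ?_
    filter_upwards [hT (emb S.μ 2 _ (bdd_ind hA)), Lp.coeFn_zero ℂ 2 S.μ,
      (S.mp 1).quasiMeasurePreserving.ae (emb_ae (μ := S.μ) (p := 2) _ (bdd_ind hA))]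
      with x a1 a2 a3
    rw [a1, a2, a3]
    by_cases hx : w x = 0
    · simp [hx]
    · rw [Set.indicator_of_notMem]
      · simp
      · show ¬ w (S.σ (-1) (S.σ 1 x)) = 0
        rwa [← S.σ_add, neg_add_cancel, S.σ_zero]
  have h2 : (T * star T) (emb S.μ 2 _ (bdd_ind hA)) = 0 :=
    hR (LinearMap.ker (T : L2 S →ₗ[ℂ] L2 S)) T.isClosed_ker
      (fun f hf => by
        have hf' : T f = 0 := hf
        show T (T f) = 0
        rw [hf', map_zero]) _ h1
  have h3 : S.σ (-1) ⁻¹' {x | w x = 0} ≤ᵐ[S.μ] {x | w x = 0} := by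
    have h4 := hT.mul_star hw (emb S.μ 2 _ (bdd_ind hA))
    rw [h2] at h4
    filter_upwards [h4, Lp.coeFn_zero ℂ 2 S.μ, emb_ae (μ := S.μ) (p := 2) _ (bdd_ind hA)]
      with x a1 a2 a3 hx
    rw [a2, S.σ_zero, a3, Set.indicator_of_mem (show x ∈ S.σ (-1) ⁻¹' {x | w x = 0} from hx)] at a1
    show w x = 0
    simpa using a1.symm
  have h4 := ae_eq_of_ae_subset_of_measure_ge h3
    ((S.mp (-1)).measure_preimage hZ.nullMeasurableSet).ge hA.nullMeasurableSet (measure_ne_top _ _)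
  have h5 : ∀ᵐ x ∂S.μ, (w (S.σ (-1) x) = 0 ↔ w x = 0) := by
    filter_upwards [h4] with x hx
    exact iff_of_eq hx
  filter_upwards [ae_all_iff.mpr fun k : ℤ => (S.mp k).quasiMeasurePreserving.ae h5] with x hx i
  induction i with
  | zero => rw [S.σ_zero]
  | succ i ih =>
    rw [← ih, ← hx (i + 1), ← S.σ_add, show -1 + ((i : ℤ) + 1) = i by ring]
  | pred i ih =>
    rw [← ih, ← hx (-i), ← S.σ_add, show -1 + -(i : ℤ) = -i - 1 by ring]

theorem exists_cob (S : Sys X) {a : X → ℝ} (ha : Measurable a) {lo hi : ℝ} (h0 : 0 < lo)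
    (h1 : ∀ x, lo ≤ a x) (h2 : ∀ x, a x ≤ hi) {q : ℕ} (hq : 0 < q) (hp : ∀ x, a (S.σ q x) = a x) :
    ∃ (ρ d : X → ℝ) (M : ℝ), Measurable ρ ∧ Measurable d ∧ (∀ x, |ρ x| ≤ hi) ∧ (∀ x, 1 ≤ d x) ∧
      (∀ x, d x ≤ M) ∧ (∀ x, ρ (S.σ 1 x) = ρ x) ∧ ∀ x, a x * d (S.σ 1 x) = ρ x * d x := by
  let P : ℕ → X → ℝ := fun k x => ∏ i ∈ Finset.range k, a (S.σ i x)
  have hPm : ∀ k, Measurable (P k) := fun k =>
    Finset.measurable_prod _ fun i _ => ha.comp (S.mp i).measurable
  have ha0 : ∀ x, 0 < a x := fun x => h0.trans_le (h1 x)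
  have hP0 : ∀ k x, 0 < P k x := fun k x => Finset.prod_pos fun i _ => ha0 _
  have hPs : ∀ k x, P (k + 1) x = a x * P k (S.σ 1 x) := by
    intro k x
    simp only [P, Finset.prod_range_succ', ← S.σ_add, Nat.cast_zero, S.σ_zero]
    rw [mul_comm]
    push_cast
    rfl
  have hPq : ∀ x, P q (S.σ 1 x) = P q x := by
    intro x
    have e : P (q + 1) x = P q x * a (S.σ q x) := Finset.prod_range_succ _ _
    rw [hPs, hp, mul_comm] at e
    exact mul_right_cancel₀ (ha0 x).ne' e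
  have hlo : ∀ k x, lo ^ k ≤ P k x := fun k x => by
    have := Finset.prod_le_prod (s := Finset.range k) (f := fun _ => lo)
      (g := fun i : ℕ => a (S.σ i x)) (fun _ _ => h0.le) fun i _ => h1 _
    simpa using this
  have hhi : ∀ k x, P k x ≤ hi ^ k := fun k x => by
    have := Finset.prod_le_prod (s := Finset.range k) (g := fun _ => hi)
      (f := fun i : ℕ => a (S.σ i x)) (fun _ _ => (ha0 _).le) fun i _ => h2 _
    simpa using this
  let ρ : X → ℝ := fun x => P q x ^ ((q : ℝ)⁻¹)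
  have hρ0 : ∀ x, 0 < ρ x := fun x => Real.rpow_pos_of_pos (hP0 q x) _
  have hρq : ∀ x, ρ x ^ q = P q x := fun x => Real.rpow_inv_natCast_pow (hP0 q x).le hq.ne'
  have hρ1 : ∀ x, lo ≤ ρ x := fun x =>
    (pow_le_pow_iff_left₀ h0.le (hρ0 x).le hq.ne').mp (by rw [hρq]; exact hlo q x)
  have hρ2 : ∀ x, ρ x ≤ hi := fun x =>
    (pow_le_pow_iff_left₀ (hρ0 x).le ((ha0 x).le.trans (h2 x)) hq.ne').mp
      (by rw [hρq]; exact hhi q x)
  have hρm : Measurable ρ := (hPm q).pow_const _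
  have hρσ : ∀ x, ρ (S.σ 1 x) = ρ x := fun x => by simp only [ρ, hPq]
  refine ⟨ρ, fun x => ∑ k ∈ Finset.range q, P k x / ρ x ^ k,
    ∑ k ∈ Finset.range q, hi ^ k / lo ^ k, hρm,
    Finset.measurable_sum _ fun k _ => (hPm k).div (hρm.pow_const k),
    fun x => by rw [abs_of_pos (hρ0 x)]; exact hρ2 x, fun x => ?_, fun x => ?_, hρσ, fun x => ?_⟩
  · have := Finset.single_le_sum (f := fun k => P k x / ρ x ^ k)
      (fun k _ => (div_pos (hP0 k x) (pow_pos (hρ0 x) k)).le) (Finset.mem_range.mpr hq)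
    simpa [P] using this
  · refine Finset.sum_le_sum fun k _ => ?_
    exact div_le_div₀ ((hP0 k x).le.trans (hhi k x)) (hhi k x) (pow_pos h0 k)
      (pow_le_pow_left₀ h0.le (hρ1 x) k)
  · have e1 : ∑ k ∈ Finset.range (q + 1), P k x / ρ x ^ k =
        ∑ k ∈ Finset.range q, P k x / ρ x ^ k + 1 := by
      rw [Finset.sum_range_succ, hρq, div_self (hP0 q x).ne']
    have e2 : ∑ k ∈ Finset.range (q + 1), P k x / ρ x ^ k =
        ∑ k ∈ Finset.range q, P (k + 1) x / ρ x ^ (k + 1) + 1 := by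
      rw [Finset.sum_range_succ']
      simp [P]
    rw [e1, add_left_inj] at e2
    simp only [hρσ]
    rw [e2, Finset.mul_sum, Finset.mul_sum]
    refine Finset.sum_congr rfl fun k _ => ?_
    rw [hPs]
    have := (hρ0 x).ne'
    field_simp
    ring

theorem periodic_part {T : L2 S →L[ℂ] L2 S} {w : X → ℂ} {C : ℝ} (hw : Bdd w C)
    (hT : IsWt S T w 1) (hR : Red T) {E : Set X} (hE : MeasurableSet E)
    (hinv : ∀ k x, S.σ k x ∈ E ↔ x ∈ E) {q : ℕ} (hq : 0 < q) {ε : ℝ} (hε : 0 < ε)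
    (hp : ∀ x ∈ E, ‖w (S.σ q x)‖ = ‖w x‖) (hl : ∀ x ∈ E, ε ≤ ‖w x‖) :
    ∀ᵐ x ∂S.μ, x ∈ E → ‖w (S.σ 1 x)‖ = ‖w x‖ := by
  classical
  have := S.prob
  obtain ⟨ρ, d, M, hρm, hdm, hρ, hd1, hd2, hρσ, hcob⟩ := exists_cob S
    (a := fun x => if x ∈ E then ‖w x‖ else 1) (Measurable.ite hE hw.meas.norm measurable_const)
    (lo := min ε 1) (hi := max C 1) (lt_min hε one_pos)
    (fun x => by
      split_ifs with h
      · exact (min_le_left _ _).trans (hl x h)
      · exact min_le_right _ _)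
    (fun x => by
      split_ifs with h
      · exact (hw.le x).trans (le_max_left _ _)
      · exact le_max_right _ _) hq
    (fun x => by
      simp only [hinv]
      split_ifs with h
      · exact hp x h
      · rfl)
  let φ : X → ℂ := fun x => if w x = 0 then 1 else w x / ‖w x‖
  have hφ1 : ∀ x, ‖φ x‖ = 1 := fun x => by
    simp only [φ]
    split_ifs with h
    · exact norm_one
    · rw [norm_div, Complex.norm_real, norm_norm, div_self (norm_ne_zero_iff.mpr h)]
  have hφ : Bdd φ 1 := ⟨Measurable.ite (hw.meas (measurableSet_singleton 0)) measurable_const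
    (hw.meas.div (Complex.measurable_ofReal.comp hw.meas.norm)), fun x => (hφ1 x).le⟩
  have hφw : ∀ x, w x = φ x * ‖w x‖ := fun x => by
    simp only [φ]
    split_ifs with h
    · simp [h]
    · rw [div_mul_cancel₀]
      exact_mod_cast norm_ne_zero_iff.mpr h
  have hd0 : ∀ x, (d x : ℂ) ≠ 0 := fun x => by
    have := hd1 x
    exact_mod_cast (show d x ≠ 0 by linarith)
  set ind : X → ℂ := E.indicator fun _ => (1 : ℂ) with hind
  have hi : Bdd ind 1 := bdd_ind hE
  have hiσ : ∀ k x, ind (S.σ k x) = ind x := fun k x => by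
    simp only [hind, Set.indicator, hinv]
  have hbD : Bdd (fun x => (d x : ℂ)) M := ⟨Complex.measurable_ofReal.comp hdm, fun x => by
    rw [Complex.norm_real, Real.norm_of_nonneg (by linarith [hd1 x])]; exact hd2 x⟩
  have hbI : Bdd (fun x => (d x : ℂ)⁻¹) 1 := ⟨hbD.meas.inv, fun x => by
    rw [norm_inv, Complex.norm_real, Real.norm_of_nonneg (by linarith [hd1 x])]
    exact inv_le_one_of_one_le₀ (hd1 x)⟩
  have hbρ : Bdd (fun x => (ρ x : ℂ)) (max C 1) := ⟨Complex.measurable_ofReal.comp hρm, fun x => by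
    rw [Complex.norm_real]; exact hρ x⟩
  obtain ⟨U, hU⟩ := exists_isWt S hφ 1
  obtain ⟨P, hP⟩ := exists_isWt S hi 0
  obtain ⟨D, hD⟩ := exists_isWt S hbD 0
  obtain ⟨I, hI⟩ := exists_isWt S hbI 0
  obtain ⟨R, hRR⟩ := exists_isWt S (bdd_mul hbρ hi) 0
  have hUu : U ∈ unitary (L2 S →L[ℂ] L2 S) :=
    ⟨((hU.star_mul hφ).congr (Eventually.of_forall fun x => by simp [hφ1]) rfl).unique (IsWt.one S),
      ((hU.mul_star hφ).congr (Eventually.of_forall fun x => by simp [hφ1]) rfl).unique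
        (IsWt.one S)⟩
  obtain ⟨Φ, hΦ, hΦU⟩ := exists_fc hUu
  have hB := hT.mul_star hw
  set B := T * star T with hBdef
  have r1 : I * T * P = R * U * I := by
    refine ((hI.mul hT).mul hP).unique
      (((hRR.mul hU).mul hI).congr (Eventually.of_forall fun x => ?_) (by simp))
    simp only [S.σ_zero, zero_add, hiσ]
    by_cases hx : x ∈ E
    · have h1 := hcob x
      simp only [hx, if_true] at h1
      have h2 : (‖w x‖ : ℂ) * d (S.σ 1 x) = ρ x * d x := by exact_mod_cast h1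
      have h3 := hd0 x
      have h4 := hd0 (S.σ 1 x)
      rw [hφw x]
      field_simp
      linear_combination (-(ind x * φ x)) * h2
    · simp [hind, hx]
  have r2 : P * T = T * P := (hP.mul hT).unique
    ((hT.mul hP).congr (Eventually.of_forall fun x => by simp [S.σ_zero, hiσ, mul_comm]) (by simp))
  have r3 : U * P = P * U := (hU.mul hP).unique
    ((hP.mul hU).congr (Eventually.of_forall fun x => by simp [S.σ_zero, hiσ, mul_comm]) (by simp))
  have r4 : U * R = R * U := (hU.mul hRR).unique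
    ((hRR.mul hU).congr
      (Eventually.of_forall fun x => by simp [S.σ_zero, hiσ, hρσ, mul_comm]) (by simp))
  have r5 : I * D = 1 := ((hI.mul hD).congr
    (Eventually.of_forall fun x => by simp [S.σ_zero, hd0]) (by simp)).unique (IsWt.one S)
  have r6 : P * (D * P) = D * P := (hP.mul (hD.mul hP)).unique
    ((hD.mul hP).congr (Eventually.of_forall fun x => by
      by_cases hx : x ∈ E <;> simp [S.σ_zero, hind, hx]) (by simp))
  have r7 : I * B * D = B := (((hI.mul hB).mul hD).congr (Eventually.of_forall fun x => by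
      have := hd0 x
      simp only [S.σ_zero, add_zero]
      field_simp) (by simp)).unique hB
  have hB0 := hB.mul hP
  have r8 : U ^ q * (B * P) = B * P * U ^ q := by
    refine ((hU.pow q).mul hB0).unique
      ((hB0.mul (hU.pow q)).congr (Eventually.of_forall fun x => ?_) (by simp))
    simp only [S.σ_zero, add_zero, hiσ]
    by_cases hx : x ∈ E
    · rw [hp x hx, mul_comm]
    · simp [hind, hx]
  have c1 := commute_of_zc Φ hΦ (B := P) (by rw [hΦU, r3])
  have c2 := commute_of_zc Φ hΦ (B := R * U) (by rw [hΦU, ← mul_assoc, r4])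
  have hloc : Loc Φ (B * P) := by
    intro f g hfg
    let K : Submodule ℂ (L2 S) := LinearMap.ker ((Φ f * I : L2 S →L[ℂ] L2 S) : L2 S →ₗ[ℂ] L2 S) ⊓
      LinearMap.ker ((P - 1 : L2 S →L[ℂ] L2 S) : L2 S →ₗ[ℂ] L2 S)
    have hK : ∀ u, u ∈ K ↔ (Φ f * I) u = 0 ∧ P u = u := fun u =>
      and_congr Iff.rfl (sub_eq_zero (a := P u) (b := u))
    have hKc : IsClosed (K : Set (L2 S)) := (Φ f * I).isClosed_ker.inter (P - 1).isClosed_ker
    have hKT : ∀ u ∈ K, T u ∈ K := by
      intro u hu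
      obtain ⟨h1, h2⟩ := (hK u).mp hu
      refine (hK _).mpr ⟨?_, ?_⟩
      · have e : Φ f * I * T * P = R * U * (Φ f * I) := by
          rw [mul_assoc (Φ f), mul_assoc (Φ f), r1, ← mul_assoc, c2, mul_assoc]
        rw [← h2]
        show (Φ f * I * T * P) u = 0
        rw [e, mul_apply_eq_comp, h1, map_zero]
      · show (P * T) u = _
        rw [r2, mul_apply_eq_comp, h2]
    ext1 v
    have h1 : (D * P * Φ g) v ∈ K := by
      refine (hK _).mpr ⟨?_, ?_⟩
      · show (Φ f * I * (D * P * Φ g)) v = 0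
        rw [mul_assoc D, mul_assoc (Φ f), ← mul_assoc I, r5, one_mul, ← mul_assoc, c1, mul_assoc,
          ← map_mul, hfg, map_zero, mul_zero]
        rfl
      · show (P * (D * P * Φ g)) v = _
        rw [← mul_assoc, r6]
    have h2 := ((hK _).mp (hKT _ (hR K hKc hKT _ h1))).1
    rw [← r7]
    exact h2
  have h3 := commute_of_loc Φ hΦ hloc hq (by rw [hΦU, r8])
  rw [hΦU] at h3
  have h4 := (hU.mul hB0).ae_eq (h3 ▸ (hB0.mul hU).congr (Eventually.of_forall fun _ => rfl) (by simp))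
  filter_upwards [h4] with x h5 hx
  simp only [S.σ_zero, add_zero, hiσ] at h5
  simp only [hind, Set.indicator_of_mem hx, mul_one] at h5
  have h6 : φ x ≠ 0 := norm_ne_zero_iff.mp (by rw [hφ1]; exact one_ne_zero)
  rw [mul_comm] at h5
  have h7 := mul_right_cancel₀ h6 h5
  rw [← sq_eq_sq₀ (norm_nonneg _) (norm_nonneg _)]
  exact_mod_cast h7

end Pool.Agent.P.MP_49c4d9_an.WT
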